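import Mathlib

/-! Three points on a horocycle: an isometry that nearly preserves the parameter moves a high point
by little. -/

set_option autoImplicit false

namespace Pool.Agent.Lib.MP_60b36a_gt.Sp

open Finset

lemma rho_close {κ x y z : ℝ} (h0 : 0 < κ) (h1 : κ ≤ 1 / 4) (hx : 0 < x)
    (a : |x * y - 1| ≤ κ) (b : |x * z - 1| ≤ κ) (c : |y * z - 1| ≤ κ) : |x - 1| ≤ 4 * κ := by
  obtain ⟨a1, a2⟩ := abs_le.1 a
  obtain ⟨b1, b2⟩ := abs_le.1 b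
  obtain ⟨c1, c2⟩ := abs_le.1 c
  have e : x ^ 2 * (y * z) = x * y * (x * z) := by ring
  have k2 : κ ^ 2 ≤ κ / 4 := by nlinarith
  have k3 : κ ^ 3 ≤ κ / 16 := by nlinarith
  refine abs_le.2 ⟨by_contra fun h => ?_, by_contra fun h => ?_⟩
  · have l : (1 - κ) * (1 - κ) ≤ x * y * (x * z) :=
      mul_le_mul (by linarith) (by linarith) (by linarith) (by linarith)
    have u : x ^ 2 * (y * z) ≤ (1 - 4 * κ) ^ 2 * (1 + κ) :=
      mul_le_mul (pow_le_pow_left₀ hx.le (by linarith) 2) (by linarith) (by linarith) (sq_nonneg _)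
    nlinarith
  · have l : x * y * (x * z) ≤ (1 + κ) * (1 + κ) :=
      mul_le_mul (by linarith) (by linarith) (by linarith) (by linarith)
    have u : (1 + 4 * κ) ^ 2 * (1 - κ) ≤ x ^ 2 * (y * z) :=
      mul_le_mul (pow_le_pow_left₀ (by linarith) (by linarith) 2) (by linarith) (by linarith)
        (sq_nonneg _)
    nlinarith

lemma pair_close {κ δ D g A A' B B' : ℝ} (h0 : 0 < κ) (h1 : κ ≤ 1 / 4) (hδ : 0 < δ) (hD : δ ^ 2 ≤ D)
    (hA : 0 < A) (hA' : 0 < A') (hB : 0 < B) (hB' : 0 < B')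
    (a : |g / (A * A') - D| ≤ κ * δ ^ 2 / 4) (b : |g / (B * B') - D| ≤ κ * δ ^ 2 / 4) :
    |B / A * (B' / A') - 1| ≤ κ := by
  have e : g / (A * A') = B / A * (B' / A') * (g / (B * B')) := by field_simp
  rw [e] at a
  set X := g / (B * B')
  set ρ := B / A * (B' / A')
  obtain ⟨a1, a2⟩ := abs_le.1 a
  obtain ⟨b1, b2⟩ := abs_le.1 b
  have d2 : 0 < δ ^ 2 := by positivity
  have hX : δ ^ 2 / 2 ≤ X := by nlinarith
  have k : κ * (δ ^ 2 / 2) ≤ κ * X := by gcongr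
  refine abs_le.2 ⟨by_contra fun h => ?_, by_contra fun h => ?_⟩ <;> nlinarith

lemma quad_le (β : Fin 3 → ℝ) (e : Fin 3 → Fin 3 → ℝ) {a m : ℝ} (ha : ∑ i, |β i| ≤ a)
    (hm : ∀ i j, |e i j| ≤ m) : |∑ i, ∑ j, β i * β j * e i j| ≤ a ^ 2 * m := by
  have m0 : 0 ≤ m := (abs_nonneg _).trans (hm 0 0)
  calc |∑ i, ∑ j, β i * β j * e i j| ≤ ∑ i, ∑ j, |β i| * |β j| * m :=
        (abs_sum_le_sum_abs _ _).trans (sum_le_sum fun i _ => (abs_sum_le_sum_abs _ _).trans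
          (sum_le_sum fun j _ => by rw [abs_mul, abs_mul]; gcongr; exact hm i j))
    _ = (∑ i, |β i|) ^ 2 * m := by rw [sq, sum_mul_sum]; simp only [sum_mul]
    _ ≤ _ := by gcongr

lemma alg {σ M δ : ℝ} (hσ : 0 < σ) (hδ : 0 < δ) : ∃ η : ℝ, 0 < η ∧
    ∀ (s t A B : Fin 3 → ℝ) (g g' : Fin 3 → Fin 3 → ℝ) (ε : ℝ), ε ^ 2 = 1 →
      (∀ a, s a - s 1 = ε * (t a - t 1)) → δ ≤ t 1 - t 0 → δ ≤ t 2 - t 1 →
      (∀ a b, |s a - t b| ≤ M) → (∀ a, 0 < A a ∧ 0 < B a) →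
      (∀ a b, |g a b / (A a * A b) - (s a - s b) ^ 2| ≤ η ∧
        |g a b / (B a * B b) - (t a - t b) ^ 2| ≤ η ∧
        |g' a b / (A a * B b) - (s a - t b) ^ 2| ≤ η) →
      ∃ α : Fin 3 → ℝ, 0 < ∑ a, ∑ b, α a * α b * g a b ∧
        ∑ a, ∑ b, α a * α b * g' a b < (1 + σ) * ∑ a, ∑ b, α a * α b * g a b := by
  obtain ⟨H, hH⟩ : ∃ H, H = M ^ 2 / σ + 1 := ⟨_, rfl⟩
  have H1 : 1 ≤ H := by rw [hH]; exact le_add_of_nonneg_left (by positivity)
  have H2 : σ * H = M ^ 2 + σ := by rw [hH]; field_simp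
  obtain ⟨a, ha⟩ : ∃ a, a = 1 + 2 * H / δ ^ 2 := ⟨_, rfl⟩
  obtain ⟨Z, hZ⟩ : ∃ Z, Z = a ^ 2 * (4 * M ^ 2 + (3 + σ) * δ ^ 2 / 4) + 1 := ⟨_, rfl⟩
  have Z0 : 0 < Z := by rw [hZ]; positivity
  obtain ⟨κ, k0, k1, k2⟩ : ∃ κ : ℝ, 0 < κ ∧ κ ≤ 1 / 4 ∧ κ * Z ≤ σ :=
    ⟨min (1 / 4) (σ / Z), by positivity, min_le_left _ _, (le_div_iff₀ Z0).1 (min_le_right _ _)⟩
  refine ⟨κ * δ ^ 2 / 4, by positivity, fun s t A B g g' ε he hs d1 d2 hM hp h => ?_⟩
  have st : ∀ i j, (s i - s j) ^ 2 = (t i - t j) ^ 2 := fun i j => by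
    have : s i - s j = ε * (t i - t j) := by linarith [hs i, hs j]
    rw [this, mul_pow, he, one_mul]
  have pc : ∀ i j, δ ≤ |t i - t j| → |B i / A i * (B j / A j) - 1| ≤ κ := fun i j hh =>
    pair_close k0 k1 hδ (D := (t i - t j) ^ 2) (by rw [← sq_abs (t i - t j)]; gcongr)
      (hp i).1 (hp j).1 (hp i).2 (hp j).2 (st i j ▸ (h i j).1) (h i j).2.1
  have p01 := pc 0 1 (le_abs.2 (Or.inr (by linarith)))
  have p02 := pc 0 2 (le_abs.2 (Or.inr (by linarith)))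
  have p12 := pc 1 2 (le_abs.2 (Or.inr (by linarith)))
  have hρ : ∀ i, |B i / A i - 1| ≤ 4 * κ := fun i => by
    have q := div_pos (hp i).2 (hp i).1
    fin_cases i
    · exact rho_close k0 k1 q p01 p02 p12
    · exact rho_close k0 k1 q (mul_comm (B 0 / A 0) _ ▸ p01) p12 p02
    · exact rho_close k0 k1 q (mul_comm (B 0 / A 0) _ ▸ p02) (mul_comm (B 1 / A 1) _ ▸ p12) p01
  obtain ⟨x, hx⟩ : ∃ x, x = t 1 - t 0 := ⟨_, rfl⟩
  obtain ⟨y, hy⟩ : ∃ y, y = t 2 - t 1 := ⟨_, rfl⟩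
  rw [← hx] at d1
  rw [← hy] at d2
  have x0 : 0 < x := hδ.trans_le d1
  have y0 : 0 < y := hδ.trans_le d2
  obtain ⟨b0, e0⟩ : ∃ b, b = H / (x * (x + y)) := ⟨_, rfl⟩
  obtain ⟨b2, e2⟩ : ∃ b, b = H / (y * (x + y)) := ⟨_, rfl⟩
  have f1 : b0 * x = b2 * y := by rw [e0, e2]; field_simp
  have f2 : b0 * x ^ 2 + b2 * y ^ 2 = H := by rw [e0, e2]; field_simp
  have u0 : 0 ≤ b0 ∧ b0 ≤ H / δ ^ 2 / 2 := by
    rw [e0, div_div]
    exact ⟨by positivity, div_le_div_of_nonneg_left (by linarith) (by positivity)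
      (by nlinarith [mul_le_mul d1 (add_le_add d1 d2) (by linarith) x0.le])⟩
  have u2 : 0 ≤ b2 ∧ b2 ≤ H / δ ^ 2 / 2 := by
    rw [e2, div_div]
    exact ⟨by positivity, div_le_div_of_nonneg_left (by linarith) (by positivity)
      (by nlinarith [mul_le_mul d2 (add_le_add d1 d2) (by linarith) y0.le])⟩
  let β : Fin 3 → ℝ := ![b0, 1 - b0 - b2, b2]
  have hβ : ∑ i, |β i| ≤ a := by
    have : |1 - b0 - b2| ≤ 1 + b0 + b2 := abs_le.2 ⟨by linarith [u0.1, u2.1], by linarith [u0.1, u2.1]⟩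
    simp only [Fin.sum_univ_three, β, Matrix.cons_val_zero, Matrix.cons_val_one, Matrix.cons_val,
      abs_of_nonneg u0.1, abs_of_nonneg u2.1]
    rw [ha, mul_div_assoc]
    linarith [u0.2, u2.2]
  have t0 : t 0 = t 1 - x := by linarith
  have t2 : t 2 = t 1 + y := by linarith
  have s0 : s 0 = s 1 - ε * x := by linarith [hs 0, t0, show ε * (t 0 - t 1) = -(ε * x) by rw [t0]; ring]
  have s2 : s 2 = s 1 + ε * y := by linarith [hs 2, show ε * (t 2 - t 1) = ε * y by rw [t2]; ring]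
  have i1 : ∑ i, ∑ j, β i * β j * (s i - s j) ^ 2 = 2 * H := by
    simp only [st, Fin.sum_univ_three, β, Matrix.cons_val_zero, Matrix.cons_val_one, Matrix.cons_val]
    rw [t0, t2]
    linear_combination 2 * f2 - 2 * (b0 * x - b2 * y) * f1
  have i2 : ∑ i, ∑ j, β i * β j * (s i - t j) ^ 2 = 2 * H + (s 1 - t 1) ^ 2 := by
    simp only [Fin.sum_univ_three, β, Matrix.cons_val_zero, Matrix.cons_val_one, Matrix.cons_val]
    rw [t0, t2, s0, s2]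
    linear_combination 2 * f2 + (b0 * x ^ 2 + b2 * y ^ 2) * he +
      (2 * (s 1 - t 1) * (1 - ε) - 2 * ε * (b0 * x - b2 * y)) * f1
  have q1 := abs_le.1 (quad_le β (fun i j => g i j / (A i * A j) - (s i - s j) ^ 2) hβ
    fun i j => (h i j).1)
  have q2 := abs_le.1 (quad_le β (fun i j => B j / A j * (g' i j / (A i * B j)) - (s i - t j) ^ 2)
    (m := 4 * κ * M ^ 2 + 2 * (κ * δ ^ 2 / 4)) hβ fun i j => by
      have e : B j / A j * (g' i j / (A i * B j)) - (s i - t j) ^ 2 = (B j / A j - 1) * (s i - t j) ^ 2 +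
          B j / A j * (g' i j / (A i * B j) - (s i - t j) ^ 2) := by ring
      have m2 : |(s i - t j) ^ 2| ≤ M ^ 2 := by rw [abs_pow]; gcongr; exact hM i j
      have r2 : |B j / A j| ≤ 2 := by
        have := abs_le.1 (hρ j)
        exact abs_le.2 ⟨by linarith, by linarith⟩
      rw [e]
      refine (abs_add_le _ _).trans (add_le_add ?_ ?_) <;> rw [abs_mul] <;> gcongr
      · exact hρ j
      · exact (h i j).2.2)
  simp only [mul_sub, sum_sub_distrib, i1, i2] at q1 q2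
  have tm : (s 1 - t 1) ^ 2 ≤ M ^ 2 := by rw [← sq_abs]; gcongr; exact hM 1 1
  refine ⟨fun i => β i / A i, ?_⟩
  have r1 : ∑ i, ∑ j, β i / A i * (β j / A j) * g i j = ∑ i, ∑ j, β i * β j * (g i j / (A i * A j)) :=
    sum_congr rfl fun i _ => sum_congr rfl fun j _ => by ring
  have r2 : ∑ i, ∑ j, β i / A i * (β j / A j) * g' i j =
      ∑ i, ∑ j, β i * β j * (B j / A j * (g' i j / (A i * B j))) :=
    sum_congr rfl fun i _ => sum_congr rfl fun j _ => by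
      have := (hp j).2.ne'
      field_simp
  rw [r1, r2]
  set P := ∑ i, ∑ j, β i * β j * (g i j / (A i * A j))
  set P' := ∑ i, ∑ j, β i * β j * (B j / A j * (g' i j / (A i * B j)))
  obtain ⟨e1, he1⟩ : ∃ e, e = a ^ 2 * (κ * δ ^ 2 / 4) := ⟨_, rfl⟩
  obtain ⟨e3, he3⟩ : ∃ e, e = a ^ 2 * (4 * κ * M ^ 2 + 2 * (κ * δ ^ 2 / 4)) := ⟨_, rfl⟩
  have z : e3 + (1 + σ) * e1 + κ = κ * Z := by rw [he1, he3, hZ]; ring
  have e10 : 0 ≤ e1 := by rw [he1]; positivity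
  have e30 : 0 ≤ e3 := by rw [he3]; positivity
  rw [← he1] at q1
  rw [← he3] at q2
  have w : (1 + σ) * (2 * H - e1) ≤ (1 + σ) * P := by gcongr; linarith [q1.1]
  have : e1 < 1 := lt_of_mul_lt_mul_left (a := 1 + σ) (by linarith) (by linarith)
  exact ⟨by linarith [q1.1], by linarith [q2.2, sq_nonneg M]⟩

end Pool.Agent.Lib.MP_60b36a_gt.Sp
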