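import Mathlib

/-! Word metrics: geodesic paths, balls, and two lemmas on hyperbolic groups. -/

set_option autoImplicit false

namespace Pool.Agent.Lib.MP_60b36a_gt.Sp

open SimpleGraph Finset
open scoped Pointwise

lemma geodesic {V : Type*} {G : SimpleGraph V} {u v : V} (h : G.Reachable u v) :
    ∃ p : ℕ → V, p 0 = u ∧ (∀ i, G.dist u v ≤ i → p i = v) ∧
      (∀ i < G.dist u v, G.Adj (p i) (p (i + 1))) ∧
      ∀ i i', i ≤ i' → i' ≤ G.dist u v → G.dist (p i) (p i') + i = i' := by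
  obtain ⟨w, hw⟩ := h.exists_walk_length_eq_dist
  have ha : ∀ i < G.dist u v, G.Adj (w.getVert i) (w.getVert (i + 1)) :=
    fun i hi => w.adj_getVert_succ (hw ▸ hi)
  have st : ∀ i t, i + t ≤ G.dist u v → G.Reachable (w.getVert i) (w.getVert (i + t)) ∧
      G.dist (w.getVert i) (w.getVert (i + t)) ≤ t := by
    intro i t
    induction t with
    | zero => exact fun _ => ⟨.rfl, by simp⟩
    | succ t ih =>
      intro ht
      obtain ⟨a, b⟩ := ih (by omega)
      have c := ha (i + t) (by omega)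
      refine ⟨a.trans c.reachable, ?_⟩
      have d := a.dist_triangle_left (w.getVert (i + t + 1))
      rw [dist_eq_one_iff_adj.2 c] at d
      exact d.trans (by omega)
  refine ⟨w.getVert, w.getVert_zero, fun i hi => w.getVert_of_length_le (hw ▸ hi), ha,
    fun i i' h1 h2 => ?_⟩
  obtain ⟨t, rfl⟩ := Nat.exists_eq_add_of_le h1
  obtain ⟨s, hs⟩ := Nat.exists_eq_add_of_le h2
  obtain ⟨a1, a2⟩ := st 0 i (by omega)
  obtain ⟨b1, b2⟩ := st i t h2
  obtain ⟨c1, c2⟩ := st (i + t) s hs.ge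
  rw [zero_add, w.getVert_zero] at a1 a2
  rw [← hs, w.getVert_of_length_le hw.le] at c1 c2
  have d1 := a1.dist_triangle_left v
  have d2 := b1.dist_triangle_left v
  omega

section Cay

variable {H : Type*} [Group H] {A : Set H}

lemma cay_dist (g u v : H) : (mulCayley A).dist (g * u) (g * v) = (mulCayley A).dist u v := by
  have key : ∀ g u v : H, (mulCayley A).Reachable u v → (mulCayley A).Reachable (g * u) (g * v) ∧
      (mulCayley A).dist (g * u) (g * v) ≤ (mulCayley A).dist u v := by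
    intro g u v h
    obtain ⟨w, hw⟩ := h.exists_walk_length_eq_dist
    let f : mulCayley A →g mulCayley A := ⟨(g * ·), fun h => mulCayley_adj_mul_iff_right.2 h⟩
    exact ⟨⟨w.map f⟩, (dist_le (w.map f)).trans (by rw [Walk.length_map, hw])⟩
  by_cases h : (mulCayley A).Reachable u v
  · have := (key g⁻¹ _ _ (key g u v h).1).2
    rw [inv_mul_cancel_left, inv_mul_cancel_left] at this
    exact le_antisymm (key g u v h).2 this
  · rw [dist_eq_zero_of_not_reachable h, dist_eq_zero_of_not_reachable fun h' => h ?_]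
    have := (key g⁻¹ _ _ h').1
    rwa [inv_mul_cancel_left, inv_mul_cancel_left] at this

lemma cay_list (l : List H) (hl : ∀ x ∈ l, x ∈ A ∨ x⁻¹ ∈ A) (g : H) :
    ∃ p : (mulCayley A).Walk g (g * l.prod), p.length ≤ l.length := by
  induction l generalizing g with
  | nil => exact ⟨Walk.nil.copy rfl (by simp), (Walk.length_copy _ _ _).le⟩
  | cons x l ih =>
    obtain ⟨p, hp⟩ := ih (fun y hy => hl y (List.mem_cons_of_mem _ hy)) (g * x)
    by_cases e : g = g * x
    · exact ⟨p.copy e.symm (by simp [mul_assoc]), by simp; omega⟩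
    · have : (mulCayley A).Adj g (g * x) := (mulCayley_adj A _ _).2
        ⟨e, by simpa using hl x List.mem_cons_self⟩
      exact ⟨(Walk.cons this p).copy rfl (by simp [mul_assoc]), by simpa using hp⟩

lemma cay_conn (hA : Subgroup.closure A = ⊤) : (mulCayley A).Connected := by
  refine ⟨fun u v => ?_⟩
  have h : u⁻¹ * v ∈ (Subgroup.closure A).toSubmonoid := by rw [hA]; trivial
  rw [Subgroup.closure_toSubmonoid] at h
  obtain ⟨l, h1, h2⟩ := Submonoid.exists_list_of_mem_closure h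
  obtain ⟨p, -⟩ := cay_list l (fun x hx => by simpa using h1 x hx) u
  exact ⟨p.copy rfl (by simp [h2])⟩

end Cay

/-- The facts on a hyperbolic word metric that are used. -/
structure Hyp {Q : Type*} [Group Q] (d : Q → Q → ℕ) (δ e : ℕ) : Prop where
  symm : ∀ x y, d x y = d y x
  tri : ∀ x y z, d x z ≤ d x y + d y z
  inv : ∀ g x y, d (g * x) (g * y) = d x y
  geo : ∀ q τ, τ ≤ d 1 q → ∃ p, d 1 p = τ ∧ d p q + τ = d 1 q
  four : ∀ x y z w, d x y + d z w ≤ max (d x z + d y w) (d x w + d y z) + δ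
  ball : ∀ (t : ℕ) (y : Q) (F : Finset Q), (∀ q ∈ F, d y q ≤ t) → F.card ≤ 2 ^ (e * t)

lemma hyp_cay {Q : Type*} [Group Q] (A : Finset Q) (hA : Subgroup.closure (A : Set Q) = ⊤) {δ : ℕ}
    (h : ∀ x y z w, (mulCayley (A : Set Q)).dist x y + (mulCayley (A : Set Q)).dist z w ≤
      max ((mulCayley (A : Set Q)).dist x z + (mulCayley (A : Set Q)).dist y w)
        ((mulCayley (A : Set Q)).dist x w + (mulCayley (A : Set Q)).dist y z) + δ) :
    ∃ e, 1 ≤ e ∧ Hyp (mulCayley (A : Set Q)).dist δ e := by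
  classical
  have hc := cay_conn hA
  set B : Finset Q := insert 1 (A ∪ A⁻¹)
  refine ⟨B.card + 1, by omega, fun _ _ => dist_comm, fun _ _ _ => hc.dist_triangle, cay_dist,
    fun q τ hτ => ?_, h, fun t y F hF => ?_⟩
  · obtain ⟨p, h0, h1, -, h3⟩ := geodesic (hc 1 q)
    refine ⟨p τ, ?_, ?_⟩
    · simpa [h0] using h3 0 τ (by omega) hτ
    · simpa [h1 _ le_rfl] using h3 τ _ hτ le_rfl
  · have key : ∀ {u v : Q} (w : (mulCayley (A : Set Q)).Walk u v), u⁻¹ * v ∈ B ^ w.length := by
      intro u v w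
      induction w with
      | nil => simp
      | @cons a b c e w ih =>
        rw [Walk.length_cons, pow_succ', show a⁻¹ * c = a⁻¹ * b * (b⁻¹ * c) by group]
        refine mul_mem_mul ?_ ih
        rcases ((mulCayley_adj _ _ _).1 e).2 with h1 | h1
        · simp [B, mem_coe.1 h1]
        · have : (a⁻¹ * b)⁻¹ ∈ A := by simpa using h1
          simp only [B, mem_insert, mem_union, mem_inv']
          exact Or.inr (Or.inr this)
    calc F.card ≤ (B ^ t).card := by
          refine card_le_card_of_injOn (fun q => y⁻¹ * q) (fun q hq => ?_)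
            fun _ _ _ _ e => mul_left_cancel e
          obtain ⟨w, hw⟩ := hc.exists_walk_length_eq_dist y q
          exact pow_subset_pow_right (mem_insert_self _ _) (hw.le.trans (hF q hq)) (key w)
      _ ≤ B.card ^ t := card_pow_le
      _ ≤ (2 ^ (B.card + 1)) ^ t := Nat.pow_le_pow_left
          ((Nat.le_succ _).trans Nat.lt_two_pow_self.le) t
      _ = _ := by rw [← pow_mul]

section HypLemmas

variable {Q : Type*} [Group Q] {d : Q → Q → ℕ} {δ e : ℕ}

lemma Hyp.chain (h : Hyp d δ e) (p : Q) (y : ℕ → Q) (m : ℕ) (t : ℕ) : ∀ a : ℕ,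
    (∀ i, a ≤ i → i < a + 2 ^ t → d (y i) (y (i + 1)) + m ≤ d (y i) p + d (y (i + 1)) p) →
    d (y a) (y (a + 2 ^ t)) + m ≤ d (y a) p + d (y (a + 2 ^ t)) p + t * δ := by
  induction t with
  | zero => intro a H; simpa using H a le_rfl (by simp)
  | succ t ih =>
    intro a H
    have e2 : 2 ^ (t + 1) = 2 ^ t + 2 ^ t := by ring
    have h1 := ih a fun i h1 h2 => H i h1 (by omega)
    have h2 := ih (a + 2 ^ t) fun i h1 h2 => H i (by omega) (by omega)
    have h3 := h.four (y a) (y (a + 2 ^ t + 2 ^ t)) (y (a + 2 ^ t)) p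
    rw [h.symm (y (a + 2 ^ t + 2 ^ t)) (y (a + 2 ^ t))] at h3
    rw [e2, ← add_assoc, add_mul, one_mul]
    omega

lemma Hyp.block (h : Hyp d δ e) (q : Q) (y : ℕ → Q) (C t a : ℕ)
    (h1 : ∀ i, a ≤ i → i < a + 2 ^ t → d (y i) (y (i + 1)) ≤ C ∧
      d 1 q + (2 * C + (t + 3) * δ) < d 1 (y i) + d (y i) q) :
    d 1 (y (a + 2 ^ t)) + d (y a) q ≤ d 1 (y a) + d (y (a + 2 ^ t)) q + δ := by
  by_contra hn
  set u := y a
  set v := y (a + 2 ^ t)
  have t1 := h.tri 1 q v
  have t2 := h.tri u 1 q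
  have t3 := h.tri 1 u q
  have t4 := h.tri 1 v q
  have s1 := h.symm q v
  have s2 := h.symm u 1
  have s3 := h.symm q u
  obtain ⟨τ, a1, a2, a3⟩ : ∃ τ, τ ≤ d 1 q ∧ d 1 q + d 1 u ≤ 2 * τ + d u q ∧
      2 * τ + d v q ≤ d 1 q + d 1 v := ⟨(d 1 q + d 1 u + 1 - d u q) / 2, by omega, by omega, by omega⟩
  obtain ⟨p, p1, p2⟩ := h.geo q τ a1
  have f1 := h.four 1 v q u
  have f2 := h.four u p 1 q
  have f3 := h.four v p 1 q
  have s4 := h.symm v u
  have s5 := h.symm p 1
  have s6 := h.symm v 1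
  have c := h.chain p y ((t + 3) * δ + 1) t a fun i i1 i2 => by
    obtain ⟨b1, b2⟩ := h1 i i1 i2
    have b3 := h.tri (y i) (y (i + 1)) p
    have b4 := h.tri 1 p (y i)
    have b5 := h.tri (y i) p q
    have b6 := h.symm p (y i)
    omega
  rw [add_mul] at c
  change d u v + _ ≤ d u p + d v p + _ at c
  omega

/-- A path with bounded steps from near `1` to near `q` of length linear in `d 1 q` spends a
positive fraction of its time near a geodesic. -/
lemma Hyp.fraction (h : Hyp d δ e) (C L : ℕ) : ∃ R B : ℕ, ∀ (q : Q) (y : ℕ → Q) (J : ℕ),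
    J ≤ L * d 1 q → d 1 (y 0) ≤ C → d (y J) q ≤ C → (∀ i < J, d (y i) (y (i + 1)) ≤ C) →
    J ≤ B * (((range J).filter fun i => d 1 (y i) + d (y i) q ≤ d 1 q + R).card + 1) := by
  obtain ⟨t, ht⟩ : ∃ t, δ * L ≤ 2 ^ t := ⟨_, Nat.lt_two_pow_self.le⟩
  refine ⟨2 * C + (t + 3) * δ, L * (2 * C * 2 ^ t + 4 * C), fun q y J hJ h0 h1 hs => ?_⟩
  set P : ℕ → Prop := fun i => d 1 (y i) + d (y i) q ≤ d 1 q + (2 * C + (t + 3) * δ)
  have st : ∀ a s, a + s ≤ J → d (y a) (y (a + s)) ≤ C * s := by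
    intro a s
    induction s with
    | zero =>
      intro _
      have := h.geo 1 0 (Nat.zero_le _)
      have e1 := h.inv (y a) 1 1
      have e2 := h.ball 0 1
      have e3 := h.four 1 1 1 1
      rw [mul_one] at e1
      obtain ⟨p, p1, -⟩ := this
      have := h.tri 1 p 1
      have := h.symm p 1
      simp only [add_zero, mul_zero]
      omega
    | succ s ih =>
      intro hh
      have := h.tri (y a) (y (a + s)) (y (a + s + 1))
      have := ih (by omega)
      have := hs (a + s) (by omega)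
      rw [← add_assoc, mul_add]
      omega
  have key : ∀ β, β * 2 ^ t ≤ J → d 1 (y (β * 2 ^ t)) + d (y 0) q ≤ d 1 (y 0) + d (y (β * 2 ^ t)) q +
      β * δ + 2 * (C * 2 ^ t) * ((range (β * 2 ^ t)).filter P).card := by
    intro β
    induction β with
    | zero => simp
    | succ β ih =>
      intro hβ
      rw [add_mul, one_mul] at hβ ⊢
      have i1 := ih (by omega)
      have mono : ((range (β * 2 ^ t)).filter P).card ≤ ((range (β * 2 ^ t + 2 ^ t)).filter P).card :=
        card_le_card (filter_subset_filter _ (range_mono (by omega)))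
      by_cases hb : ∃ i, β * 2 ^ t ≤ i ∧ i < β * 2 ^ t + 2 ^ t ∧ P i
      · obtain ⟨i, b1, b2, b3⟩ := hb
        have lt : ((range (β * 2 ^ t)).filter P).card < ((range (β * 2 ^ t + 2 ^ t)).filter P).card :=
          card_lt_card ⟨filter_subset_filter _ (range_mono (by omega)), fun hsub => by
            have := hsub (mem_filter.2 ⟨mem_range.2 b2, b3⟩)
            simp only [mem_filter, mem_range] at this
            omega⟩
        have m2 := Nat.mul_le_mul_left (2 * (C * 2 ^ t)) (Nat.succ_le_of_lt lt)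
        have s1 := st (β * 2 ^ t) (2 ^ t) hβ
        have t1 := h.tri 1 (y (β * 2 ^ t)) (y (β * 2 ^ t + 2 ^ t))
        have t2 := h.tri (y (β * 2 ^ t)) (y (β * 2 ^ t + 2 ^ t)) q
        rw [Nat.succ_eq_add_one, mul_add] at m2
        rw [add_mul]
        omega
      · have b := h.block q y C t (β * 2 ^ t) fun i b1 b2 =>
          ⟨hs i (by omega), not_le.1 fun hp => hb ⟨i, b1, b2, hp⟩⟩
        have m2 := Nat.mul_le_mul_left (2 * (C * 2 ^ t)) mono
        rw [add_mul]
        omega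
  have hp : 0 < 2 ^ t := by positivity
  have e1 := Nat.div_add_mod' J (2 ^ t)
  have e2 := Nat.mod_lt J hp
  set β := J / 2 ^ t
  have k := key β (by omega)
  have s1 := st (β * 2 ^ t) (J % 2 ^ t) e1.le
  rw [e1] at s1
  have s2 : C * (J % 2 ^ t) ≤ C * 2 ^ t := Nat.mul_le_mul_left _ e2.le
  have mono : ((range (β * 2 ^ t)).filter P).card ≤ ((range J).filter P).card :=
    card_le_card (filter_subset_filter _ (range_mono (by omega)))
  have m2 := Nat.mul_le_mul_left (2 * (C * 2 ^ t)) mono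
  set x := ((range J).filter P).card
  have t1 := h.tri 1 (y (β * 2 ^ t)) q
  have t2 := h.tri (y (β * 2 ^ t)) (y J) q
  have t3 := h.tri 1 (y 0) q
  have a1 : 2 * d 1 q ≤ β * δ + 2 * (C * 2 ^ t) * x + 2 * (C * 2 ^ t) + 4 * C := by omega
  have a2 : L * (β * δ) ≤ J := by
    calc L * (β * δ) = β * (δ * L) := by ring
      _ ≤ β * 2 ^ t := Nat.mul_le_mul_left _ ht
      _ ≤ J := by omega
  have a3 := Nat.mul_le_mul_left L a1
  have a4 : L * (β * δ + 2 * (C * 2 ^ t) * x + 2 * (C * 2 ^ t) + 4 * C) + L * (4 * C) * x =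
      L * (β * δ) + L * (2 * C * 2 ^ t + 4 * C) * (x + 1) := by ring
  have a5 : L * (2 * d 1 q) = 2 * (L * d 1 q) := by ring
  omega

/-- Few points near a geodesic lie in a ball. -/
lemma Hyp.tube (h : Hyp d δ e) (q y : Q) (R D : ℕ) (F : Finset Q)
    (hF : ∀ z ∈ F, d 1 z + d z q ≤ d 1 q + R ∧ d y z ≤ D) :
    F.card ≤ 2 ^ (e * (R + δ)) * (2 * D + 1) := by
  have h1 : ∀ z ∈ F, d 1 z ∈ Icc (d 1 y - D) (d 1 y + D) := fun z hz => by
    have := (hF z hz).2
    have := h.tri 1 y z
    have := h.tri 1 z y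
    have := h.symm y z
    rw [mem_Icc]
    omega
  refine (card_le_mul_card_image_of_maps_to h1 _ fun τ _ => ?_).trans
    (Nat.mul_le_mul_left _ (by rw [Nat.card_Icc]; omega))
  rcases (F.filter fun z => d 1 z = τ).eq_empty_or_nonempty with h0 | ⟨z, hz⟩
  · simp [h0]
  refine h.ball _ z _ fun w hw => ?_
  obtain ⟨a1, a2⟩ := mem_filter.1 hz
  obtain ⟨b1, b2⟩ := mem_filter.1 hw
  have := (hF z a1).1
  have := (hF w b1).1
  have := h.four 1 q z w
  have := h.symm q w
  have := h.symm q z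
  omega

end HypLemmas

end Pool.Agent.Lib.MP_60b36a_gt.Sp
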