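import Pool.Agent.Lib.MP_60b36a_gt.Sp.Scale

/-! The averaging argument over all scales and all fibres. -/

set_option autoImplicit false

namespace Pool.Agent.Lib.MP_60b36a_gt.Sp

open Finset
open scoped Classical

variable {G E Q : Type*} [Group G] [NormedAddCommGroup E] [InnerProductSpace ℝ E] [Group Q]
  {r : G → ℝ} {ξ : G → E} {top : G → ℝ → G} {ball : ℝ → Finset G} {k : ℕ} {C c σ : ℝ}
  {d : Q → Q → ℕ} {δ e : ℕ} {π : G →* Q} {S c₀ : ℝ} {T : ℕ} {q : Q} {x : ℕ → G} {n : ℕ}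

omit [InnerProductSpace ℝ E] in
lemma Path.mass (h : Geo r ξ top ball k C c σ) (P : Path r ξ π S c₀ T q x n) (hS : 0 ≤ S)
    (hT : 0 < T) {K : ℝ} (hK : 1 ≤ K) : c₀ ≤ ∑ i ∈ mid r K T x n, mu ξ x i +
      2 * S / K * (1 + T * ∑ i ∈ range n, (r (x i))⁻¹ ^ 2) := by
  have T0 : (0 : ℝ) < T := by exact_mod_cast hT
  have a1 := sum_inc (fun i => ‖ξ (x i) - ξ (x 0)‖) n
  simp only [sub_self, norm_zero, sub_zero] at a1
  have a2 : ∑ i ∈ range n, mu ξ x i ≤ ∑ i ∈ range n, ((if (T : ℝ) ≤ K * r (x i) ∧ r (x i) ≤ K * T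
      then mu ξ x i else 0) + 2 * S / K * ((T : ℝ)⁻¹ + T * (r (x i))⁻¹ ^ 2)) :=
    sum_le_sum fun i hi => by
      have p := h.pos (x i)
      have b : mu ξ x i ≤ 2 * S / r (x i) := (inc_le _ i).trans (P.f_step h (mem_range.1 hi))
      split_ifs with hc
      · exact le_add_of_nonneg_right (by positivity)
      rw [zero_add]
      refine b.trans ?_
      rw [show 2 * S / r (x i) = 2 * S / K * (K / r (x i)) by field_simp]
      gcongr
      rcases not_and_or.1 hc with b1 | b1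
      · calc K / r (x i) = K * r (x i) * (r (x i))⁻¹ ^ 2 := by field_simp
          _ ≤ T * (r (x i))⁻¹ ^ 2 := by gcongr; exact (not_le.1 b1).le
          _ ≤ _ := le_add_of_nonneg_left (by positivity)
      · calc K / r (x i) ≤ K / (K * T) := by gcongr; exact (not_le.1 b1).le
          _ = (T : ℝ)⁻¹ := by field_simp
          _ ≤ _ := le_add_of_nonneg_right (by positivity)
  rw [sum_add_distrib, ← sum_filter, ← mul_sum, sum_add_distrib, ← mul_sum, sum_const, card_range,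
    nsmul_eq_mul] at a2
  have a3 : (n : ℝ) * (T : ℝ)⁻¹ ≤ 1 := by
    rw [← div_eq_mul_inv, div_le_one T0]; exact_mod_cast P.len
  have a4 : 2 * S / K * (n * (T : ℝ)⁻¹ + T * ∑ i ∈ range n, (r (x i))⁻¹ ^ 2) ≤
      2 * S / K * (1 + T * ∑ i ∈ range n, (r (x i))⁻¹ ^ 2) := by gcongr
  exact P.far.trans (a1.trans (a2.trans (add_le_add le_rfl a4)))

omit [InnerProductSpace ℝ E] in
lemma Path.energy (h : Geo r ξ top ball k C c σ) (P : Path r ξ π S c₀ T q x n) :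
    ∑ i ∈ range T, ‖ξ (x (i + 1)) - ξ (x i)‖ ^ 2 ≤ 4 * S ^ 2 * ∑ i ∈ range n, (r (x i))⁻¹ ^ 2 := by
  rw [← sum_subset (range_mono P.len) fun i _ hi => by
    have := not_lt.1 fun a => hi (mem_range.2 a)
    rw [P.const i this, P.const (i + 1) (by omega)]; simp, mul_sum]
  refine sum_le_sum fun i hi => ?_
  calc _ ≤ (2 * S / r (x i)) ^ 2 := by gcongr; exact h.step (P.step i (mem_range.1 hi))
    _ = _ := by ring

omit [InnerProductSpace ℝ E] in
lemma Geo.psi (h : Geo r ξ top ball k C c σ) (hk : 3 ≤ k) (J : ℕ) (F : Finset Q)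
    (X : Q → ℕ → G) (N : Q → ℕ) (P : ∀ q ∈ F, Path r ξ π S c₀ (2 ^ J) q (X q) (N q)) :
    ∑ q ∈ F, 2 ^ J * ∑ i ∈ range (N q), (r (X q i))⁻¹ ^ 2 ≤ C * 2 ^ k * (2 ^ J) ^ (k - 1) + F.card := by
  have T0 : (0 : ℝ) < 2 ^ J := by positivity
  have s1 : ∀ q ∈ F, 2 ^ J * ∑ i ∈ range (N q), (r (X q i))⁻¹ ^ 2 ≤
      2 ^ J * ∑ g ∈ (ball (2 ^ J)).filter fun g => π g = q, (r g)⁻¹ ^ 2 + 1 := fun q hq => by
    rw [← sum_filter_add_sum_filter_not _ fun i => r (X q i) ≤ 2 ^ J, mul_add]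
    refine add_le_add (mul_le_mul_of_nonneg_left ?_ T0.le) ?_
    · rw [← sum_image (g := X q) (f := fun g => (r g)⁻¹ ^ 2) fun i hi j hj e => ?_]
      · refine sum_le_sum_of_subset_of_nonneg (fun g hg => ?_) fun _ _ _ => sq_nonneg _
        obtain ⟨i, hi, rfl⟩ := mem_image.1 hg
        exact mem_filter.2 ⟨(h.mem _ _).2 (mem_filter.1 hi).2, (P q hq).cos i⟩
      · have a := (mem_range.1 (mem_filter.1 hi).1).le
        have b := (mem_range.1 (mem_filter.1 hj).1).le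
        have := (P q hq).iso i a j b i a i a (by rw [e])
        omega
    · have a := sum_le_card_nsmul ((range (N q)).filter fun i => ¬ r (X q i) ≤ 2 ^ J)
        (fun i => (r (X q i))⁻¹ ^ 2) (((2 : ℝ) ^ J)⁻¹ ^ 2) fun i hi => by
          have := (not_le.1 (mem_filter.1 hi).2).le
          have := h.pos (X q i)
          gcongr
      have b : (((range (N q)).filter fun i => ¬ r (X q i) ≤ 2 ^ J).card : ℝ) ≤ 2 ^ J := by
        exact_mod_cast (card_filter_le _ _).trans ((card_range _).trans_le (P q hq).len)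
      rw [nsmul_eq_mul] at a
      calc _ ≤ 2 ^ J * (2 ^ J * ((2 : ℝ) ^ J)⁻¹ ^ 2) := by gcongr; exact a.trans (by gcongr)
        _ = 1 := by field_simp
  refine (sum_le_sum s1).trans ?_
  rw [sum_add_distrib, ← mul_sum, sum_const, nsmul_eq_mul, mul_one,
    sum_fiberwise_eq_sum_filter _ _ fun g => π g]
  have a := (sum_le_sum_of_subset_of_nonneg (filter_subset (fun g => π g ∈ F) (ball (2 ^ J)))
    fun g _ _ => sq_nonneg (r g)⁻¹).trans (h.sum_sq hk J)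
  have b : (2 : ℝ) ^ J * (C * 2 ^ k * (2 ^ J) ^ (k - 2)) = C * 2 ^ k * (2 ^ J) ^ (k - 1) := by
    rw [show k - 1 = k - 2 + 1 by omega]; ring
  rw [← b]
  gcongr

lemma Geo.path (h : Geo r ξ top ball k C c σ) (H : Hyp d δ e) (π : G →* Q) {S K : ℝ}
    (hS : 0 ≤ S) (hK : 1 ≤ K) : ∃ B : ℕ, ∀ (W θ : ℝ) (m₀ : ℕ), 0 ≤ W → 0 < θ →
    ∃ m, m₀ ≤ m ∧ ∃ ε : ℝ, 0 < ε ∧ ∃ j₀ : ℕ, K ≤ 2 ^ j₀ ∧ ∀ (J : ℕ) (c₀ : ℝ) (q : Q) (x : ℕ → G) (n : ℕ),
      2 * (B * (m + j₀ + 1)) ≤ J → J ≤ e * d 1 q → Path r ξ π S c₀ (2 ^ J) q x n →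
      J / 2 * ∑ i ∈ mid r K (2 ^ J) x n, mu ξ x i ≤ B * (J * θ +
        ∑ s ∈ (range J).filter fun s => m ≤ s ∧ s + j₀ ≤ J,
          ∑ i ∈ (mid r K (2 ^ s * 2 ^ (J - s)) x n).filter (fun i =>
            Heavy π (ball (2 * c * (K * 2 ^ (J - s)))) (W * 2 ^ (J - s))
              (π ((top (x i) (2 ^ s))⁻¹ * x i))), mu ξ x i +
        8 * S ^ 3 * K * (J / (2 ^ m) ^ 2 + (2 ^ m / ε) ^ 2) *
          (2 ^ J * ∑ i ∈ range n, (r (x i))⁻¹ ^ 2)) := by
  obtain ⟨D, hD⟩ := h.chain H π hK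
  obtain ⟨R, B, hB⟩ := H.fraction D e
  refine ⟨B, fun W θ m₀ hW hθ => ?_⟩
  obtain ⟨m, m0, ε, ε0, j₀, j0, hs⟩ := h.scale H π R m₀ hS hK hW hθ
  refine ⟨m, m0, ε, ε0, j₀, j0, fun J c₀ q x n hJ hq P => ?_⟩
  set A := (range J).filter fun s => m ≤ s ∧ s + j₀ ≤ J with hA
  set I : ℕ → ℕ → Prop := fun s i => d 1 (π (top (x i) (2 ^ s))) + d (π (top (x i) (2 ^ s))) q ≤
    d 1 q + R with hI
  set p : ℕ → E := fun i => ξ (x i)
  set Ψ := ∑ i ∈ range n, (r (x i))⁻¹ ^ 2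
  have mu0 : ∀ i, 0 ≤ mu ξ x i := fun i => inc_nonneg _ i
  have a1 : ∀ i ∈ mid r K (2 ^ J) x n, (J : ℝ) / 2 ≤ B * (A.filter fun s => I s i).card := fun i hi => by
    obtain ⟨-, b1, b2⟩ := mem_filter.1 hi
    obtain ⟨c1, c2, c3⟩ := hD (x i) J b1 b2
    have c4 := hB q (fun s => π (top (x i) (2 ^ s))) J hq c1 (P.cos i ▸ c2) c3
    have c5 : ((range J).filter fun s => I s i).card ≤ (A.filter fun s => I s i).card + (m + j₀) := by
      have : ((range J).filter fun s => I s i) ⊆ (A.filter fun s => I s i) ∪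
          (range m ∪ Ico (J - j₀) J) := fun s hs => by
        simp only [hA, mem_filter, mem_union, mem_range, mem_Ico] at hs ⊢
        by_cases o : m ≤ s ∧ s + j₀ ≤ J
        · exact Or.inl ⟨⟨hs.1, o⟩, hs.2⟩
        · omega
      have u1 := (card_le_card this).trans (card_union_le _ _)
      have u2 := card_union_le (range m) (Ico (J - j₀) J)
      rw [card_range, Nat.card_Ico] at u2
      omega
    have c6 := c4.trans (Nat.mul_le_mul_left B (Nat.succ_le_succ c5))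
    rw [Nat.succ_eq_add_one, add_assoc, mul_add] at c6
    have c7 : J ≤ 2 * (B * (A.filter fun s => I s i).card) := by omega
    rw [div_le_iff₀' two_pos]
    exact_mod_cast c7
  have a2 : J / 2 * ∑ i ∈ mid r K (2 ^ J) x n, mu ξ x i ≤
      B * ∑ s ∈ A, ∑ i ∈ (mid r K (2 ^ J) x n).filter (I s), mu ξ x i := by
    simp only [sum_filter]
    rw [sum_comm, mul_sum, mul_sum]
    refine sum_le_sum fun i hi => ?_
    rw [← sum_filter, sum_const, nsmul_eq_mul, ← mul_assoc]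
    exact mul_le_mul_of_nonneg_right (a1 i hi) (mu0 i)
  have en := P.energy h
  have T0 : (0 : ℝ) < 2 ^ J := by positivity
  have a3 : ∀ s ∈ A, ∑ i ∈ (mid r K (2 ^ J) x n).filter (I s), mu ξ x i ≤ θ +
      ∑ i ∈ (mid r K (2 ^ s * 2 ^ (J - s)) x n).filter (fun i =>
        Heavy π (ball (2 * c * (K * 2 ^ (J - s)))) (W * 2 ^ (J - s))
          (π ((top (x i) (2 ^ s))⁻¹ * x i))), mu ξ x i +
      2 * S * K * 2 ^ J * (4 * S ^ 2 * Ψ / (2 ^ m) ^ 2 +
        devS p (2 ^ (J - (J - s + m))) (J - s + m) * (2 ^ m / ε) ^ 2) := fun s hs' => by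
    obtain ⟨-, b1, b2⟩ := mem_filter.1 hs'
    obtain ⟨s, rfl⟩ := Nat.exists_eq_add_of_le' b1
    obtain ⟨j, rfl⟩ := Nat.exists_eq_add_of_le (Nat.le_of_add_right_le b2)
    have c1 := dor p (s + m + j) (m + j) (by omega)
    have c2 := sum_nonneg fun i (_ : i ∈ range (m + j + 1)) => devS_nonneg p (2 ^ (s + m + j - i)) i
    have c3 := devS_nonneg p (2 ^ (s + m + j - (m + j))) (m + j)
    rw [show s + m + j - (m + j) = s by omega] at c1 c3
    rw [Nat.add_sub_cancel_left, add_comm j m, show s + m + j - (m + j) = s by omega, ← pow_add]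
    refine (hs s j c₀ q x n (by omega) P).trans ?_
    gcongr
    linarith
  have a4 : ∑ s ∈ A, devS p (2 ^ (J - (J - s + m))) (J - s + m) ≤ 4 * S ^ 2 * Ψ := by
    rw [← sum_image (g := fun s => J - s + m) (f := fun i => devS p (2 ^ (J - i)) i)
      fun s hs s' hs' e => ?_]
    · refine (sum_le_sum_of_subset_of_nonneg (t := range (J + 1)) (fun i hi => ?_)
        fun i _ _ => devS_nonneg _ _ _).trans ?_
      · obtain ⟨s, hs, rfl⟩ := mem_image.1 hi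
        have := (mem_filter.1 hs).2
        exact mem_range.2 (by omega)
      · linarith [dor p J J le_rfl, devS_nonneg p (2 ^ (J - J)) J, enS_nonneg p (2 ^ (J - J)) J]
    · have := (mem_filter.1 hs).2
      have := (mem_filter.1 hs').2
      simp only at e
      omega
  refine a2.trans (mul_le_mul_of_nonneg_left ((sum_le_sum a3).trans ?_) B.cast_nonneg)
  have cA : (A.card : ℝ) ≤ J := by exact_mod_cast (card_filter_le _ _).trans (card_range J).le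
  have Ψ0 : 0 ≤ Ψ := sum_nonneg fun _ _ => sq_nonneg _
  rw [sum_add_distrib, sum_add_distrib, ← mul_sum, sum_add_distrib, ← sum_mul, sum_const, sum_const,
    nsmul_eq_mul, nsmul_eq_mul]
  refine add_le_add (add_le_add (by gcongr) le_rfl) ?_
  calc _ ≤ 2 * S * K * 2 ^ J * (J * (4 * S ^ 2 * Ψ / (2 ^ m) ^ 2) + 4 * S ^ 2 * Ψ * (2 ^ m / ε) ^ 2) := by
        gcongr
    _ = _ := by ring

theorem Geo.core (h : Geo r ξ top ball k C c σ) (hk : 3 ≤ k) (H : Hyp d δ e) (he : 1 ≤ e)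
    (π : G →* Q) {S c₀ ε : ℝ} (hS : 0 ≤ S) (hc : 0 < c₀) (hε : 0 < ε) : ∃ J₀ : ℕ, ∀ J, J₀ ≤ J →
    ∀ F : Finset Q, (∀ q ∈ F, ∃ x n, Path r ξ π S c₀ (2 ^ J) q x n) →
      (F.card : ℝ) ≤ 2 * ε * (2 ^ J) ^ (k - 1) := by
  have C0 := h.C0
  have c1 := h.c1
  obtain ⟨κ, hκ⟩ : ∃ κ, κ = C * 2 ^ k / ε + 1 := ⟨_, rfl⟩
  have κ0 : 0 < κ := by rw [hκ]; positivity
  obtain ⟨K, hK⟩ : ∃ K, K = 4 * S * (1 + κ) / c₀ + 1 := ⟨_, rfl⟩
  have K1 : 1 ≤ K := by rw [hK]; exact le_add_of_nonneg_left (by positivity)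
  have K2 : 2 * S / K * (1 + κ) ≤ c₀ / 2 := by
    have : K * c₀ = 4 * S * (1 + κ) + c₀ := by rw [hK]; field_simp
    rw [div_mul_eq_mul_div, div_le_div_iff₀ (by linarith) two_pos]
    linarith
  obtain ⟨B, hB⟩ := h.path H π hS K1
  obtain ⟨θ, θ0, θ1⟩ : ∃ θ : ℝ, 0 < θ ∧ B * θ ≤ c₀ / 16 := ⟨c₀ / 16 / (B + 1), by positivity, by
    rw [← mul_div_assoc, div_le_iff₀ (by positivity)]; linarith⟩
  obtain ⟨A, hA⟩ : ∃ A, A = C ^ 2 * (2 * c ^ 2 * K) ^ k * (8 * c + 2 * S) := ⟨_, rfl⟩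
  have A0 : 0 ≤ A := by rw [hA]; positivity
  obtain ⟨W, W0, W1⟩ : ∃ W : ℝ, 0 < W ∧ A / W ≤ θ * ε := ⟨A / (θ * ε) + 1, by positivity, by
    rw [div_le_iff₀ (by positivity), mul_add, mul_div_cancel₀ _ (by positivity), mul_one]
    exact le_add_of_nonneg_right (by positivity)⟩
  obtain ⟨m₀, hm₀⟩ := pow_unbounded_of_one_lt (8 * S ^ 3 * K * κ / θ) one_lt_two
  obtain ⟨m, m0, η, η0, j₀, j0, hp⟩ := hB W θ m₀ W0.le θ0
  have M1 : 8 * S ^ 3 * K * κ / (2 ^ m) ^ 2 ≤ θ := by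
    have a : (2 : ℝ) ^ m₀ ≤ (2 ^ m) ^ 2 := (pow_le_pow_right₀ one_le_two m0).trans
      (le_self_pow₀ (one_le_pow₀ one_le_two) two_ne_zero)
    rw [div_le_iff₀' (by positivity), ← div_le_iff₀ θ0]
    exact hm₀.le.trans a
  obtain ⟨Z, hZ⟩ : ∃ Z, Z = B * (8 * S ^ 3 * K * κ * (2 ^ m / η) ^ 2) := ⟨_, rfl⟩
  obtain ⟨J₁, hJ₁⟩ := exists_nat_gt (max (16 * Z / c₀) ε⁻¹)
  refine ⟨max J₁ (2 * (B * (m + j₀ + 1))), fun J hJ F hF => ?_⟩
  have J1 : max (16 * Z / c₀) ε⁻¹ < J := hJ₁.trans_le (by exact_mod_cast (le_max_left _ _).trans hJ)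
  have J2 : 16 * Z < J * c₀ := (div_lt_iff₀ hc).1 ((le_max_left _ _).trans_lt J1)
  have T1 : (1 : ℝ) ≤ 2 ^ J := one_le_pow₀ one_le_two
  have f2 : ((F.filter fun q => ¬ J ≤ e * d 1 q).card : ℝ) ≤ ε * (2 ^ J) ^ (k - 1) := by
    have a := H.ball (J / e) 1 (F.filter fun q => ¬ J ≤ e * d 1 q) fun q hq =>
      (Nat.le_div_iff_mul_le he).2 (by have := (mem_filter.1 hq).2; rw [mul_comm]; omega)
    have b : ((F.filter fun q => ¬ J ≤ e * d 1 q).card : ℝ) ≤ 2 ^ J := by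
      exact_mod_cast a.trans (Nat.pow_le_pow_right two_pos (Nat.mul_div_le J e))
    have b1 : ε⁻¹ ≤ 2 ^ J := ((le_max_right _ _).trans J1.le).trans
      (by exact_mod_cast Nat.lt_two_pow_self.le)
    rw [inv_le_iff_one_le_mul₀' hε] at b1
    calc _ ≤ 1 * (2 : ℝ) ^ J := by linarith
      _ ≤ ε * 2 ^ J * 2 ^ J := by gcongr
      _ = ε * (2 ^ J) ^ 2 := by ring
      _ ≤ _ := by gcongr; omega
  have f1 : ((F.filter fun q => J ≤ e * d 1 q).card : ℝ) ≤ ε * (2 ^ J) ^ (k - 1) := by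
    refine not_lt.1 fun hlt => ?_
    set F₁ := F.filter fun q => J ≤ e * d 1 q
    choose! X N P using fun q (hq : q ∈ F₁) => hF q (mem_filter.1 hq).1
    obtain ⟨a, ha⟩ : ∃ a : ℝ, a = F₁.card := ⟨_, rfl⟩
    have a0 : 0 < a := ha ▸ lt_of_le_of_lt (by positivity) hlt
    have s1 := h.psi hk J F₁ X N P
    have s2 := sum_le_sum fun q (hq : q ∈ F₁) => (P q hq).mass h hS (by positivity) K1
    have s3 := sum_le_sum fun q (hq : q ∈ F₁) =>
      hp J c₀ q (X q) (N q) ((le_max_right _ _).trans hJ) (mem_filter.1 hq).2 (P q hq)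
    have s4 := sum_le_card_nsmul ((range J).filter fun s => m ≤ s ∧ s + j₀ ≤ J) _ (θ * a)
      fun s hs => (h.heavy (by omega) π hS K1 W0 (u := 2 ^ s) (l := 2 ^ (J - s))
        (one_le_pow₀ one_le_two) (j0.trans (pow_le_pow_right₀ one_le_two (by
          have := (mem_filter.1 hs).2.2; omega))) F₁ X N P).trans (by
        rw [← hA, ← pow_add, Nat.add_sub_cancel' (mem_range.1 (mem_filter.1 hs).1).le]
        calc _ ≤ θ * ε * (2 ^ J) ^ (k - 1) := by gcongr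
          _ ≤ _ := by rw [mul_assoc, ha]; gcongr)
    have cA : (((range J).filter fun s => m ≤ s ∧ s + j₀ ≤ J).card : ℝ) ≤ J := by
      exact_mod_cast (card_filter_le _ _).trans (card_range J).le
    rw [nsmul_eq_mul, sum_comm] at s4
    replace s4 := s4.trans (mul_le_mul_of_nonneg_right cA (by positivity))
    push_cast at s2
    rw [sum_add_distrib, ← mul_sum, sum_add_distrib, sum_const, sum_const, nsmul_eq_mul,
      nsmul_eq_mul, ← ha] at s2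
    rw [← mul_sum, ← mul_sum, sum_add_distrib, sum_add_distrib, sum_const, nsmul_eq_mul, ← mul_sum,
      ← ha] at s3
    rw [← ha] at s1 hlt
    generalize ∑ q ∈ F₁, 2 ^ J * ∑ i ∈ range (N q), (r (X q i))⁻¹ ^ 2 = y at s1 s2 s3
    generalize ∑ q ∈ F₁, ∑ i ∈ mid r K (2 ^ J) (X q) (N q), mu ξ (X q) i = z at s2 s3
    have y1 : y ≤ κ * a := by
      have : C * 2 ^ k / ε * (ε * (2 ^ J) ^ (k - 1)) ≤ C * 2 ^ k / ε * a := by gcongr
      rw [← mul_assoc, div_mul_cancel₀ _ hε.ne'] at this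
      rw [hκ]
      linarith
    have z1 : c₀ / 2 * a ≤ z := by
      have b1 : 2 * S / K * (a * 1 + y) ≤ 2 * S / K * (a * 1 + κ * a) := by gcongr
      have b2 := mul_le_mul_of_nonneg_right K2 a0.le
      linarith
    have J0 : (0 : ℝ) ≤ J := J.cast_nonneg
    have b1 : 8 * S ^ 3 * K * (J / (2 ^ m) ^ 2 + (2 ^ m / η) ^ 2) * y ≤
        8 * S ^ 3 * K * (J / (2 ^ m) ^ 2 + (2 ^ m / η) ^ 2) * (κ * a) := by gcongr
    have b2 : J * a * (8 * S ^ 3 * K * κ / (2 ^ m) ^ 2) ≤ J * a * θ := by gcongr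
    have b3 := s3.trans (mul_le_mul_of_nonneg_left (add_le_add (add_le_add le_rfl s4) b1) B.cast_nonneg)
    have b4 := mul_le_mul_of_nonneg_left b2 (B.cast_nonneg : (0 : ℝ) ≤ B)
    have b5 : J * a * (B * θ) ≤ J * a * (c₀ / 16) := by gcongr
    have b6 := mul_le_mul_of_nonneg_left z1 (by positivity : (0 : ℝ) ≤ J / 2)
    have b7 := mul_lt_mul_of_pos_right J2 a0
    have b8 : B * (a * (J * θ) + J * (θ * a) +
        8 * S ^ 3 * K * (J / (2 ^ m) ^ 2 + (2 ^ m / η) ^ 2) * (κ * a)) = 2 * (J * a * (B * θ)) +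
        B * (J * a * (8 * S ^ 3 * K * κ / (2 ^ m) ^ 2)) + Z * a := by rw [hZ]; ring
    linarith
  have := card_filter_add_card_filter_not (s := F) fun q => J ≤ e * d 1 q
  rw [← this]
  push_cast
  linarith

end Pool.Agent.Lib.MP_60b36a_gt.Sp
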