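import Mathlib

/-! Dyadic differentiation of a sequence in an inner product space, record increments, and the
algebra of three points on a line. -/

set_option autoImplicit false

namespace Pool.Agent.Lib.MP_60b36a_gt.Sp

open Finset

section Dor

variable {E : Type*} [NormedAddCommGroup E] [InnerProductSpace ℝ E]

/-- mean velocity on the window of length `2 ^ j` starting at `a` -/
noncomputable def vel (p : ℕ → E) (a j : ℕ) : E := ((2 : ℝ) ^ j)⁻¹ • (p (a + 2 ^ j) - p a)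

/-- deviation from the linear interpolation on that window -/
noncomputable def dev (p : ℕ → E) (a j t : ℕ) : E := p (a + t) - p a - (t : ℝ) • vel p a j

lemma sq_add_le (x y : E) : ‖x + y‖ ^ 2 ≤ 2 * ‖x‖ ^ 2 + 2 * ‖y‖ ^ 2 := by
  have := parallelogram_law_with_norm ℝ x y
  nlinarith [sq_nonneg ‖x - y‖]

lemma dor_step (p : ℕ → E) (a j : ℕ) :
    2 * (∑ t ∈ range (2 ^ (j + 1)), ‖dev p a (j + 1) t‖ ^ 2) / 4 ^ (j + 1) +
      2 ^ (j + 1) * ‖vel p a (j + 1)‖ ^ 2 ≤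
    (∑ t ∈ range (2 ^ j), ‖dev p a j t‖ ^ 2) / 4 ^ j + 2 ^ j * ‖vel p a j‖ ^ 2 +
      ((∑ t ∈ range (2 ^ j), ‖dev p (a + 2 ^ j) j t‖ ^ 2) / 4 ^ j +
        2 ^ j * ‖vel p (a + 2 ^ j) j‖ ^ 2) := by
  have hL : (0 : ℝ) < 2 ^ j := by positivity
  set L : ℝ := 2 ^ j with hLdef
  set u := vel p a j with hu
  set v := vel p (a + 2 ^ j) j with hv
  have e2 : 2 ^ (j + 1) = 2 ^ j + 2 ^ j := by ring
  have pu : p (a + 2 ^ j) = p a + L • u := by
    rw [hu, vel, smul_smul, mul_inv_cancel₀ hL.ne', one_smul, add_sub_cancel]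
  have pv : p (a + 2 ^ j + 2 ^ j) = p (a + 2 ^ j) + L • v := by
    rw [hv, vel, smul_smul, mul_inv_cancel₀ hL.ne', one_smul, add_sub_cancel]
  have hw : vel p a (j + 1) = (1 / 2 : ℝ) • (u + v) := by
    rw [vel, e2, ← add_assoc, pv, pu, pow_succ, ← hLdef]
    match_scalars <;> field_simp <;> ring
  set D := (1 / 2 : ℝ) • (u - v) with hD
  have hb : ∀ c : ℝ, |c| ≤ L → ‖c • D‖ ^ 2 ≤ L ^ 2 * ‖D‖ ^ 2 := fun c hc => by
    rw [norm_smul, mul_pow, Real.norm_eq_abs]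
    gcongr
  have ht : ∀ t ∈ range (2 ^ j), (t : ℝ) ≤ L := fun t ht => by
    rw [hLdef]; exact_mod_cast (mem_range.1 ht).le
  have h1 : ∑ t ∈ range (2 ^ j), ‖dev p a (j + 1) t‖ ^ 2 ≤
      ∑ t ∈ range (2 ^ j), (2 * ‖dev p a j t‖ ^ 2 + 2 * (L ^ 2 * ‖D‖ ^ 2)) :=
    sum_le_sum fun t h => by
      have : dev p a (j + 1) t = dev p a j t + (t : ℝ) • D := by
        rw [dev, dev, hw, hD, ← hu]; module
      rw [this]
      have := hb t (by rw [Nat.abs_cast]; exact ht t h)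
      linarith [sq_add_le (dev p a j t) ((t : ℝ) • D)]
  have h2 : ∑ t ∈ range (2 ^ j), ‖dev p a (j + 1) (2 ^ j + t)‖ ^ 2 ≤
      ∑ t ∈ range (2 ^ j), (2 * ‖dev p (a + 2 ^ j) j t‖ ^ 2 + 2 * (L ^ 2 * ‖D‖ ^ 2)) :=
    sum_le_sum fun t h => by
      have : dev p a (j + 1) (2 ^ j + t) = dev p (a + 2 ^ j) j t + (L - t) • D := by
        rw [dev, dev, hw, hD, ← hv, ← add_assoc, pu]
        push_cast
        rw [← hLdef]
        module
      rw [this]
      have := hb (L - t) (abs_le.2 ⟨by linarith [ht t h], by linarith [(t.cast_nonneg : (0 : ℝ) ≤ t)]⟩)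
      linarith [sq_add_le (dev p (a + 2 ^ j) j t) ((L - t) • D)]
  rw [sum_add_distrib, ← mul_sum, sum_const, card_range, nsmul_eq_mul] at h1 h2
  push_cast at h1 h2
  rw [← hLdef] at h1 h2
  have par := parallelogram_law_with_norm ℝ u v
  have n1 : ‖vel p a (j + 1)‖ = ‖u + v‖ / 2 := by rw [hw, norm_smul]; norm_num; ring
  have n2 : ‖D‖ = ‖u - v‖ / 2 := by rw [hD, norm_smul]; norm_num; ring
  have f4 : (4 : ℝ) ^ j = L ^ 2 := by rw [hLdef, ← pow_mul, mul_comm, pow_mul]; norm_num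
  rw [e2, sum_range_add, pow_succ (4 : ℝ), pow_succ (2 : ℝ), f4, ← hLdef, n1]
  rw [n2] at h1 h2
  set s1 := ∑ t ∈ range (2 ^ j), ‖dev p a (j + 1) t‖ ^ 2
  set s2 := ∑ t ∈ range (2 ^ j), ‖dev p a (j + 1) (2 ^ j + t)‖ ^ 2
  set r1 := ∑ t ∈ range (2 ^ j), ‖dev p a j t‖ ^ 2
  set r2 := ∑ t ∈ range (2 ^ j), ‖dev p (a + 2 ^ j) j t‖ ^ 2
  have k : 2 * (s1 + s2) / (L ^ 2 * 4) ≤ r1 / L ^ 2 + r2 / L ^ 2 + L * ‖u - v‖ ^ 2 / 2 := by
    rw [div_le_iff₀ (by positivity)]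
    have : (r1 / L ^ 2 + r2 / L ^ 2 + L * ‖u - v‖ ^ 2 / 2) * (L ^ 2 * 4) =
        4 * r1 + 4 * r2 + 2 * (L ^ 3 * ‖u - v‖ ^ 2) := by field_simp; ring
    rw [this]
    nlinarith
  nlinarith

lemma sum_range_mul' (F : ℕ → ℝ) (a b : ℕ) :
    ∑ i ∈ range (a * b), F i = ∑ w ∈ range a, ∑ t ∈ range b, F (w * b + t) := by
  induction a with
  | zero => simp
  | succ a ih => rw [add_mul, one_mul, sum_range_add, ih, sum_range_succ]

/-- total squared deviation at level `j`, over `n` windows -/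
noncomputable def devS (p : ℕ → E) (n j : ℕ) : ℝ :=
  ∑ w ∈ range n, (∑ t ∈ range (2 ^ j), ‖dev p (w * 2 ^ j) j t‖ ^ 2) / 4 ^ j

/-- energy at level `j`, over `n` windows -/
noncomputable def enS (p : ℕ → E) (n j : ℕ) : ℝ :=
  ∑ w ∈ range n, 2 ^ j * ‖vel p (w * 2 ^ j) j‖ ^ 2

lemma devS_nonneg (p : ℕ → E) (n j : ℕ) : 0 ≤ devS p n j :=
  sum_nonneg fun _ _ => by positivity

lemma enS_nonneg (p : ℕ → E) (n j : ℕ) : 0 ≤ enS p n j :=
  sum_nonneg fun _ _ => by positivity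

lemma dor (p : ℕ → E) (J j : ℕ) (hj : j ≤ J) :
    ∑ i ∈ range (j + 1), devS p (2 ^ (J - i)) i + devS p (2 ^ (J - j)) j + enS p (2 ^ (J - j)) j ≤
      ∑ i ∈ range (2 ^ J), ‖p (i + 1) - p i‖ ^ 2 := by
  induction j with
  | zero => simp [devS, enS, dev, vel]
  | succ j ih =>
    have i1 := ih (by omega)
    have e : 2 ^ (J - j) = 2 ^ (J - (j + 1)) * 2 := by
      rw [← pow_succ]; congr 1; omega
    have k : 2 * devS p (2 ^ (J - (j + 1))) (j + 1) + enS p (2 ^ (J - (j + 1))) (j + 1) ≤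
        devS p (2 ^ (J - j)) j + enS p (2 ^ (J - j)) j := by
      rw [devS, devS, enS, enS, ← sum_add_distrib, e, sum_range_mul', mul_sum, ← sum_add_distrib]
      refine sum_le_sum fun w _ => ?_
      have := dor_step p (w * 2 ^ (j + 1)) j
      rw [sum_range_succ, sum_range_one, add_zero, show w * 2 * 2 ^ j = w * 2 ^ (j + 1) by ring,
        show (w * 2 + 1) * 2 ^ j = w * 2 ^ (j + 1) + 2 ^ j by ring, ← mul_div_assoc]
      exact this
    rw [sum_range_succ]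
    linarith

end Dor

/-- running maximum -/
noncomputable def rmax (f : ℕ → ℝ) : ℕ → ℝ
  | 0 => f 0
  | i + 1 => max (rmax f i) (f (i + 1))

/-- record increment -/
noncomputable def inc (f : ℕ → ℝ) (i : ℕ) : ℝ := rmax f (i + 1) - rmax f i

lemma le_rmax (f : ℕ → ℝ) : ∀ i, f i ≤ rmax f i
  | 0 => le_rfl
  | _ + 1 => le_max_right _ _

lemma inc_nonneg (f : ℕ → ℝ) (i : ℕ) : 0 ≤ inc f i := sub_nonneg.2 (le_max_left _ _)

lemma inc_le (f : ℕ → ℝ) (i : ℕ) : inc f i ≤ |f (i + 1) - f i| := by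
  have := le_rmax f i
  have := le_abs_self (f (i + 1) - f i)
  have := abs_nonneg (f (i + 1) - f i)
  rw [inc, rmax, sub_le_iff_le_add, max_le_iff]
  constructor <;> linarith

lemma sum_inc (f : ℕ → ℝ) (n : ℕ) : f n - f 0 ≤ ∑ i ∈ range n, inc f i := by
  simp only [inc]
  rw [sum_range_sub]
  exact sub_le_sub_right (le_rmax f n) _

lemma sum_inc_le (f : ℕ → ℝ) (U : Finset ℕ) {c ρ σ : ℝ} (hρ : 0 ≤ ρ) (hσ : 0 ≤ σ)
    (h : ∀ i ∈ U, |f i - c| ≤ ρ ∧ |f (i + 1) - f i| ≤ σ) : ∑ i ∈ U, inc f i ≤ 2 * ρ + σ := by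
  obtain ⟨n, hn⟩ := U.exists_nat_subset_range
  let G : ℕ → ℝ := fun i => max (c - ρ) (min (rmax f i) (c + ρ + σ))
  have mono : ∀ i, 0 ≤ G (i + 1) - G i := fun i =>
    sub_nonneg.2 (max_le_max le_rfl (min_le_min (le_max_left _ _) le_rfl))
  calc ∑ i ∈ U, inc f i ≤ ∑ i ∈ U, (G (i + 1) - G i) := sum_le_sum fun i hi => by
        obtain ⟨a, b⟩ := h i hi
        have a1 := abs_le.1 a
        have b1 := abs_le.1 b
        have c1 := le_rmax f i
        rcases le_total (f (i + 1)) (rmax f i) with l | l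
        · rw [inc, rmax, max_eq_left l, sub_self]; exact mono i
        · simp only [G, inc, rmax, max_eq_right l]
          rw [min_eq_left (by linarith), min_eq_left (by linarith), max_eq_right (by linarith),
            max_eq_right (by linarith)]
    _ ≤ ∑ i ∈ range n, (G (i + 1) - G i) := sum_le_sum_of_subset_of_nonneg hn fun i _ _ => mono i
    _ = G n - G 0 := sum_range_sub G n
    _ ≤ _ := by
        have a : G n ≤ c + ρ + σ := max_le (by linarith) (min_le_right _ _)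
        have b : c - ρ ≤ G 0 := le_max_left _ _
        linarith

end Pool.Agent.Lib.MP_60b36a_gt.Sp
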