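import Pool.Agent.Lib.MP_60b36a_gt.Sp.Cay
import Pool.Agent.Lib.MP_60b36a_gt.Sp.Alg

/-! The geometric data of a cocompact action, in abstract form, and first consequences. -/

set_option autoImplicit false

namespace Pool.Agent.Lib.MP_60b36a_gt.Sp

open Finset

/-- `r g` is the hyperbolic cosine of the displacement of the base point, `ξ g` the Klein point,
`top x u` a group element near the point at height `u` on the way to `x`. -/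
structure Geo {G E : Type*} [Group G] [NormedAddCommGroup E] (r : G → ℝ) (ξ : G → E)
    (top : G → ℝ → G) (ball : ℝ → Finset G) (k : ℕ) (C c σ : ℝ) : Prop where
  one_le : ∀ g, 1 ≤ r g
  inv : ∀ g, r g⁻¹ = r g
  gram : ∀ g h, r (g⁻¹ * h) = r g * r h * (‖ξ g - ξ h‖ ^ 2 + (r g)⁻¹ ^ 2 + (r h)⁻¹ ^ 2) / 2
  tri : ∀ g h, r (g * h) ≤ 2 * r g * r h
  mem : ∀ R g, g ∈ ball R ↔ r g ≤ R
  card : ∀ R, 1 ≤ R → ((ball R).card : ℝ) ≤ C * R ^ k
  c1 : 1 ≤ c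
  t1 : ∀ x u, 1 ≤ u → r (top x u) ≤ c * u
  t2 : ∀ x u, 1 ≤ u → r ((top x u)⁻¹ * x) ≤ c * (r x / u + u / r x)
  t3 : ∀ x x' u u', 1 ≤ u → 1 ≤ u' → r ((top x u)⁻¹ * top x' u') ≤
    c * (u * u' * (u⁻¹ ^ 2 + u'⁻¹ ^ 2 + ‖ξ x - ξ x'‖ ^ 2 + (r x)⁻¹ ^ 2 + (r x')⁻¹ ^ 2))
  σ0 : 0 < σ
  sys : ∀ n, n ≠ 1 → ∀ (x : Fin 3 → G) (α : Fin 3 → ℝ),
    0 < ∑ a, ∑ b, α a * α b * r ((x a)⁻¹ * x b) →
    (1 + σ) * ∑ a, ∑ b, α a * α b * r ((x a)⁻¹ * x b) ≤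
      ∑ a, ∑ b, α a * α b * r ((x a)⁻¹ * (n * x b))

variable {G E Q : Type*} [Group G] [NormedAddCommGroup E] [Group Q] {r : G → ℝ} {ξ : G → E}
  {top : G → ℝ → G} {ball : ℝ → Finset G} {k : ℕ} {C c σ : ℝ} {d : Q → Q → ℕ} {δ e : ℕ}

namespace Geo

variable (h : Geo r ξ top ball k C c σ)
include h

lemma pos (g : G) : 0 < r g := one_pos.trans_le (h.one_le g)

lemma C0 : 0 ≤ C := by simpa using (Nat.cast_nonneg _).trans (h.card 1 le_rfl)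

lemma step {x y : G} {S : ℝ} (hS : r (x⁻¹ * y) ≤ S) : ‖ξ y - ξ x‖ ≤ 2 * S / r x := by
  have hx := h.pos x
  have hy := h.pos y
  have S0 : 0 < S := (h.pos _).trans_le hS
  have a := h.tri y (y⁻¹ * x)
  rw [mul_inv_cancel_left, ← h.inv (y⁻¹ * x), mul_inv_rev, inv_inv] at a
  have a' : r x ≤ 2 * r y * S := a.trans (by gcongr)
  have b : r x * r y * ‖ξ x - ξ y‖ ^ 2 ≤ 2 * S := by
    have := h.gram x y
    have p : 0 ≤ r x * r y * ((r x)⁻¹ ^ 2 + (r y)⁻¹ ^ 2) := by positivity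
    linarith
  rw [norm_sub_rev, le_div_iff₀ hx]
  refine (pow_le_pow_iff_left₀ (by positivity) (by positivity) two_ne_zero).1 ?_
  calc (‖ξ x - ξ y‖ * r x) ^ 2 = r x * (r x * ‖ξ x - ξ y‖ ^ 2) := by ring
    _ ≤ 2 * r y * S * (r x * ‖ξ x - ξ y‖ ^ 2) := by gcongr
    _ = 2 * S * (r x * r y * ‖ξ x - ξ y‖ ^ 2) := by ring
    _ ≤ 2 * S * (2 * S) := by gcongr
    _ = _ := by ring

lemma t2' {x : G} {u : ℝ} (hu : 1 ≤ u) (hx : u ≤ r x) : r ((top x u)⁻¹ * x) ≤ 2 * c * (r x / u) := by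
  have c1 := h.c1
  have a : u / r x ≤ 1 := (div_le_one (h.pos x)).2 hx
  have b : 1 ≤ r x / u := (one_le_div (by linarith)).2 hx
  calc _ ≤ c * (r x / u + u / r x) := h.t2 x u hu
    _ ≤ c * (r x / u + r x / u) := by gcongr; linarith
    _ = _ := by ring

lemma same_top {x y : G} {u : ℝ} (hu : 1 ≤ u) (hx : u ≤ r x) (hy : u ≤ r y)
    (e : top x u = top y u) : ‖ξ x - ξ y‖ ≤ 4 * c / u := by
  have px := h.pos x
  have py := h.pos y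
  have c1 := h.c1
  have a := h.tri ((top x u)⁻¹ * x)⁻¹ ((top y u)⁻¹ * y)
  rw [h.inv, show ((top x u)⁻¹ * x)⁻¹ * ((top y u)⁻¹ * y) = x⁻¹ * y by rw [e]; group] at a
  have a1 := h.t2' hu hx
  have a2 := h.t2' hu hy
  have p2 := h.pos ((top y u)⁻¹ * y)
  have a3 : r (x⁻¹ * y) ≤ 2 * (2 * c * (r x / u)) * (2 * c * (r y / u)) := a.trans (by gcongr)
  have b : r x * r y * ‖ξ x - ξ y‖ ^ 2 ≤ r x * r y * (4 * c / u) ^ 2 := by
    have := h.gram x y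
    have p : 0 ≤ r x * r y * ((r x)⁻¹ ^ 2 + (r y)⁻¹ ^ 2) := by positivity
    have q : r x * r y * (4 * c / u) ^ 2 = 2 * (2 * (2 * c * (r x / u)) * (2 * c * (r y / u))) := by
      ring
    linarith
  exact (pow_le_pow_iff_left₀ (by positivity) (by positivity) two_ne_zero).1
    (le_of_mul_le_mul_left b (by positivity))

lemma lip (π : G → Q) (d : Q → Q → ℕ) (R : ℝ) : ∃ D : ℕ, ∀ g, r g ≤ R → d 1 (π g) ≤ D :=
  ⟨(ball R).sup fun g => d 1 (π g), fun g hg => le_sup (f := fun g => d 1 (π g)) ((h.mem R g).2 hg)⟩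

lemma chain (H : Hyp d δ e) (π : G →* Q) {K : ℝ} (hK : 1 ≤ K) : ∃ D : ℕ, ∀ (x : G) (J : ℕ),
    2 ^ J ≤ K * r x → r x ≤ K * 2 ^ J → d 1 (π (top x (2 ^ 0))) ≤ D ∧
      d (π (top x (2 ^ J))) (π x) ≤ D ∧
      ∀ s < J, d (π (top x (2 ^ s))) (π (top x (2 ^ (s + 1)))) ≤ D := by
  obtain ⟨D, hD⟩ := h.lip π d (c * (3 + 4 * K ^ 2))
  have c1 := h.c1
  have key : ∀ a b : G, r (a⁻¹ * b) ≤ c * (3 + 4 * K ^ 2) → d (π a) (π b) ≤ D := fun a b hab => by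
    have := H.inv (π a) 1 (π (a⁻¹ * b))
    rw [mul_one, ← map_mul, mul_inv_cancel_left] at this
    exact this ▸ hD _ hab
  refine ⟨D, fun x J h1 h2 => ⟨hD _ ((h.t1 x _ (by simp)).trans ?_), key _ _ ?_, fun s hs => key _ _ ?_⟩⟩
  · gcongr; nlinarith
  · refine (h.t2 x _ (one_le_pow₀ one_le_two)).trans ?_
    have a : r x / 2 ^ J ≤ K := (div_le_iff₀ (by positivity)).2 h2
    have b : 2 ^ J / r x ≤ K := (div_le_iff₀ (h.pos x)).2 h1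
    exact mul_le_mul_of_nonneg_left (by nlinarith) (by linarith)
  · refine (h.t3 x x _ _ (one_le_pow₀ one_le_two) (one_le_pow₀ one_le_two)).trans ?_
    have px := h.pos x
    have a : (2 : ℝ) ^ s / r x ≤ K := (div_le_iff₀ px).2
      ((pow_le_pow_right₀ one_le_two hs.le).trans h1)
    have a2 : ((2 : ℝ) ^ s / r x) ^ 2 ≤ K ^ 2 := by gcongr
    have b : (2 : ℝ) ^ s * 2 ^ (s + 1) * ((2 ^ s)⁻¹ ^ 2 + (2 ^ (s + 1))⁻¹ ^ 2 + ‖ξ x - ξ x‖ ^ 2 +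
        (r x)⁻¹ ^ 2 + (r x)⁻¹ ^ 2) = 5 / 2 + 4 * (2 ^ s / r x) ^ 2 := by
      rw [sub_self, norm_zero, pow_succ (2 : ℝ) s]; field_simp; ring
    rw [b]
    gcongr ?_ * ?_
    linarith

lemma len (H : Hyp d δ e) (π : G →* Q) : ∃ D : ℕ, ∀ (g : G) (t : ℕ), r g ≤ 2 ^ t →
    d 1 (π g) ≤ D * (t + 2) := by
  obtain ⟨D, hD⟩ := h.chain H π (K := 2) one_le_two
  refine ⟨D, fun g t ht => ?_⟩
  obtain ⟨J, a, b⟩ := exists_nat_pow_near (h.one_le g) one_lt_two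
  have hJ : J ≤ t := (pow_le_pow_iff_right₀ one_lt_two).1 (a.trans ht)
  obtain ⟨c1, c2, c3⟩ := hD g J (by linarith [h.pos g]) (by rw [pow_succ] at b; linarith)
  have key : ∀ s ≤ J, d 1 (π (top g (2 ^ s))) ≤ D * (s + 1) := by
    intro s
    induction s with
    | zero => intro _; simpa using c1
    | succ s ih =>
      intro hs
      have := H.tri 1 (π (top g (2 ^ s))) (π (top g (2 ^ (s + 1))))
      have := ih (by omega)
      have := c3 s (by omega)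
      rw [mul_add D (s + 1)]
      omega
  have := H.tri 1 (π (top g (2 ^ J))) (π g)
  have := key J le_rfl
  have : D * (J + 1 + 1) ≤ D * (t + 2) := Nat.mul_le_mul_left _ (by omega)
  rw [mul_add D (J + 1)] at this
  omega

lemma sum_sq (hk : 3 ≤ k) (J : ℕ) :
    ∑ g ∈ ball (2 ^ J), (r g)⁻¹ ^ 2 ≤ C * 2 ^ k * (2 ^ J) ^ (k - 2) := by
  classical
  have C0 := h.C0
  induction J with
  | zero =>
    have a : ∑ g ∈ ball (2 ^ 0), (r g)⁻¹ ^ 2 ≤ (ball (2 ^ 0)).card • (1 : ℝ) :=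
      sum_le_card_nsmul _ _ _ fun g _ =>
        pow_le_one₀ (inv_nonneg.2 (h.pos g).le) (inv_le_one_of_one_le₀ (h.one_le g))
    have b := h.card 1 le_rfl
    have : C * 1 ≤ C * 2 ^ k := by gcongr; exact one_le_pow₀ one_le_two
    simp only [pow_zero, one_pow, nsmul_eq_mul] at *
    linarith
  | succ J ih =>
    have hs : ball (2 ^ J) ⊆ ball (2 ^ (J + 1)) := fun g hg => (h.mem _ _).2
      (((h.mem _ _).1 hg).trans (pow_le_pow_right₀ one_le_two (by omega)))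
    have a : ∑ g ∈ ball (2 ^ (J + 1)) \ ball (2 ^ J), (r g)⁻¹ ^ 2 ≤
        (ball (2 ^ (J + 1)) \ ball (2 ^ J)).card • (((2 : ℝ) ^ J)⁻¹ ^ 2) :=
      sum_le_card_nsmul _ _ _ fun g hg => by
        have := not_le.1 fun e => (mem_sdiff.1 hg).2 ((h.mem _ _).2 e)
        have := h.pos g
        gcongr
    have b : ((ball (2 ^ (J + 1)) \ ball (2 ^ J)).card : ℝ) ≤ C * (2 ^ (J + 1)) ^ k :=
      (Nat.cast_le.2 (card_le_card sdiff_subset)).trans (h.card _ (one_le_pow₀ one_le_two))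
    obtain ⟨k, rfl⟩ : ∃ j, k = j + 3 := ⟨k - 3, by omega⟩
    rw [show k + 3 - 2 = k + 1 by omega] at ih ⊢
    have b2 : C * ((2 : ℝ) ^ (J + 1)) ^ (k + 3) * (2 ^ J)⁻¹ ^ 2 = C * 2 ^ (k + 3) * (2 ^ J) ^ (k + 1) := by
      rw [pow_succ (2 : ℝ) J, mul_pow]; field_simp; ring
    have b3 : C * 2 ^ (k + 3) * ((2 : ℝ) ^ J) ^ (k + 1) * 2 ≤ C * 2 ^ (k + 3) * (2 ^ (J + 1)) ^ (k + 1) := by
      rw [pow_succ (2 : ℝ) J, mul_pow, mul_assoc (C * _)]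
      gcongr
      exact le_self_pow₀ one_le_two (by omega)
    rw [← sum_sdiff hs]
    rw [nsmul_eq_mul] at a
    have := mul_le_mul_of_nonneg_right b (sq_nonneg ((2 : ℝ) ^ J)⁻¹)
    linarith

end Geo

end Pool.Agent.Lib.MP_60b36a_gt.Sp
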