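import Pool.Agent.Lib.MP_60b36a_gt.Main
import Pool.Agent.Lib.MP_60b36a_gt.Sp.Geo

/-! The hyperboloid model provides the abstract geometric data. -/

set_option autoImplicit false

namespace Pool.Agent.Lib.MP_60b36a_gt.Sp

open Finset Filter Topology
open scoped RealInnerProductSpace

variable {n : ℕ}

/-- points of hyperbolic space -/
def UF (X : Fin (n + 1) → ℝ) : Prop := lor X X = -1 ∧ 0 < X 0

/-- Klein coordinates -/
noncomputable def kl (X : Fin (n + 1) → ℝ) : EuclideanSpace ℝ (Fin n) :=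
  WithLp.toLp 2 fun i => X i.succ / X 0

/-- the point with given Klein coordinates -/
noncomputable def vec (κ : EuclideanSpace ℝ (Fin n)) : Fin (n + 1) → ℝ :=
  (√(1 - ‖κ‖ ^ 2))⁻¹ • (Fin.cons 1 κ : Fin (n + 1) → ℝ)

variable {X Y : Fin (n + 1) → ℝ} {g : GL (Fin (n + 1)) ℝ}

lemma lor_kl (hX : X 0 ≠ 0) (hY : Y 0 ≠ 0) : -lor X Y = X 0 * Y 0 * (1 - ⟪kl X, kl Y⟫) := by
  have : X 0 * Y 0 * ⟪kl X, kl Y⟫ = ∑ i : Fin n, X i.succ * Y i.succ := by
    simp only [kl, PiLp.inner_apply, mul_sum]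
    exact sum_congr rfl fun i _ => by simp; field_simp
  rw [mul_sub, this, lor]
  ring

lemma UF.norm (h : UF X) : ‖kl X‖ ^ 2 = 1 - (X 0)⁻¹ ^ 2 := by
  have := lor_kl h.2.ne' h.2.ne'
  rw [h.1, real_inner_self_eq_norm_sq] at this
  have h0 := h.2.ne'
  field_simp
  linarith

lemma UF.gram (h : UF X) (h' : UF Y) :
    -lor X Y = X 0 * Y 0 * (‖kl X - kl Y‖ ^ 2 + (X 0)⁻¹ ^ 2 + (Y 0)⁻¹ ^ 2) / 2 := by
  rw [lor_kl h.2.ne' h'.2.ne', norm_sub_sq_real, h.norm, h'.norm]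
  ring

lemma UF.norm_le (h : UF X) : ‖kl X‖ ≤ 1 :=
  (sq_le_one_iff₀ (norm_nonneg _)).1 (by rw [h.norm]; linarith [sq_nonneg (X 0)⁻¹])

lemma UF.up (h : UF X) (h' : UF Y) : -lor X Y ≤ 2 * X 0 * Y 0 := by
  have a := (abs_le.1 ((abs_real_inner_le_norm (kl X) (kl Y)).trans
    (mul_le_one₀ h.norm_le (norm_nonneg _) h'.norm_le))).1
  have := mul_pos h.2 h'.2
  rw [lor_kl h.2.ne' h'.2.ne']
  nlinarith

lemma UF.low (h : UF X) (h' : UF Y) : Y 0 ≤ 2 * X 0 * -lor X Y := by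
  have a := h.2
  have b := h'.2
  have e : 2 * X 0 * -lor X Y = Y 0 + X 0 ^ 2 * Y 0 * (‖kl X - kl Y‖ ^ 2 + (Y 0)⁻¹ ^ 2) := by
    rw [h.gram h']; field_simp; ring
  rw [e]
  exact le_add_of_nonneg_right (by positivity)

lemma UF.pos (h : UF X) (h' : UF Y) : 0 < -lor X Y := by
  have a := h.2
  have b := h'.2
  rw [h.gram h']
  positivity

lemma UF.eq (h : UF X) (h' : UF Y) (e : -lor X Y ≤ 1) : X = Y := by
  have a := h.2
  have b := h'.2
  have e1 : (-lor X Y - 1) * (2 * X 0 * Y 0) =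
      (X 0 * Y 0 * ‖kl X - kl Y‖) ^ 2 + (X 0 - Y 0) ^ 2 := by rw [h.gram h']; field_simp; ring
  have e2 : (-lor X Y - 1) * (2 * X 0 * Y 0) ≤ 0 :=
    mul_nonpos_of_nonpos_of_nonneg (by linarith) (by positivity)
  have e3 : X 0 = Y 0 := by nlinarith [sq_nonneg (X 0 * Y 0 * ‖kl X - kl Y‖)]
  have e4 : X 0 * Y 0 * ‖kl X - kl Y‖ = 0 := by nlinarith [sq_nonneg (X 0 - Y 0)]
  have e5 : kl X = kl Y := sub_eq_zero.1 (norm_eq_zero.1 ((mul_eq_zero.1 e4).resolve_left (by positivity)))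
  funext i
  refine Fin.cases e3 (fun j => ?_) i
  have : X j.succ / X 0 = Y j.succ / Y 0 := congrArg (fun v : EuclideanSpace ℝ (Fin n) => v j) e5
  rwa [e3, div_left_inj' b.ne'] at this

lemma uf_pt (hg : IsLor g) : UF (pt g) := ⟨lor_pt_self hg, hg.2⟩

lemma act_zero (hg : IsLor g) (X : Fin (n + 1) → ℝ) : act g X 0 = -lor (pt g⁻¹) X := by
  rw [← lor_act hg, ← pt_mul, mul_inv_cancel, pt_eq, act_one, lor_single_zero, neg_neg]

lemma UF.act (h : UF X) (hg : IsLor g) (hg' : IsLor g⁻¹) : UF (act g X) :=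
  ⟨by rw [lor_act hg, h.1], by rw [act_zero hg]; exact (uf_pt hg').pos h⟩

lemma UF.tri (h : UF X) (h' : UF Y) (hg : IsLor g) (hg' : IsLor g⁻¹) {ρ : ℝ}
    (hρ : Lib.MP_60b36a_gt.act g X 0 ≤ ρ) : Lib.MP_60b36a_gt.act g Y 0 ≤ 2 * ρ * -lor X Y := by
  have a := (h.act hg hg').low (h'.act hg hg')
  rw [lor_act hg] at a
  have := h.pos h'
  exact a.trans (by gcongr)

lemma vec_spec {η : EuclideanSpace ℝ (Fin n)} (hη : ‖η‖ ≤ 1) {u : ℝ} (hu : 1 ≤ u) :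
    UF (vec ((1 - u⁻¹ ^ 2) • η)) ∧ kl (vec ((1 - u⁻¹ ^ 2) • η)) = (1 - u⁻¹ ^ 2) • η ∧
      vec ((1 - u⁻¹ ^ 2) • η) 0 ≤ u := by
  have u0 : 0 < u⁻¹ := by positivity
  have a1 : u⁻¹ ^ 2 ≤ 1 := pow_le_one₀ u0.le (inv_le_one_of_one_le₀ hu)
  have a0 : 0 < u⁻¹ ^ 2 := by positivity
  set κ := (1 - u⁻¹ ^ 2) • η
  have k1 : ‖κ‖ ≤ 1 - u⁻¹ ^ 2 := by
    rw [norm_smul, Real.norm_of_nonneg (by linarith)]
    exact mul_le_of_le_one_right (by linarith) hη
  have k2 : u⁻¹ ^ 2 ≤ 1 - ‖κ‖ ^ 2 := by nlinarith [norm_nonneg κ]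
  have k3 : u⁻¹ ≤ √(1 - ‖κ‖ ^ 2) := Real.le_sqrt_of_sq_le k2
  have k4 : 0 < √(1 - ‖κ‖ ^ 2) := u0.trans_le k3
  have v0 : vec κ 0 = (√(1 - ‖κ‖ ^ 2))⁻¹ := by simp [vec]
  have v1 : kl (vec κ) = κ := by
    ext i
    simp only [kl, v0]
    simp only [vec, Pi.smul_apply, Fin.cons_succ, smul_eq_mul]
    field_simp
  have v2 : 0 < vec κ 0 := by rw [v0]; positivity
  refine ⟨⟨?_, v2⟩, v1, by rw [v0]; exact inv_le_of_inv_le₀ (by linarith) k3⟩
  have := lor_kl v2.ne' v2.ne'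
  rw [v1, real_inner_self_eq_norm_sq, v0, ← mul_inv, Real.mul_self_sqrt (by linarith),
    inv_mul_cancel₀ (by linarith)] at this
  linarith

lemma lor_lin (α β γ : ℝ) (X Y Z W : Fin (n + 1) → ℝ) :
    lor (α • X + β • Y + γ • Z) W = α * lor X W + β * lor Y W + γ * lor Z W := by
  simp only [lor, Pi.add_apply, Pi.smul_apply, smul_eq_mul, add_mul, sum_add_distrib, mul_assoc,
    ← mul_sum]
  ring

lemma lor_smul (a : ℝ) (X Y : Fin (n + 1) → ℝ) : lor (a • X) (a • Y) = a ^ 2 * lor X Y := by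
  simp only [lor, Pi.smul_apply, smul_eq_mul, mul_mul_mul_comm a _ a, ← mul_sum]
  ring

lemma systole (Γ : Subgroup (GL (Fin (n + 1)) ℝ)) (hO : ∀ g ∈ Γ, IsLor g) (hd : DiscreteTopology Γ)
    (htf : ∀ g ∈ Γ, IsOfFinOrder g → g = 1) {ρ : ℝ} (hco : ∀ X, UF X → ∃ g ∈ Γ, act g X 0 ≤ ρ) :
    ∃ σ : ℝ, 0 < σ ∧ ∀ g ∈ Γ, g ≠ 1 → ∀ Y, 0 < -lor Y Y → (1 + σ) * -lor Y Y ≤ -lor Y (act g Y) := by
  have cl : Continuous fun p : (Fin (n + 1) → ℝ) × (Fin (n + 1) → ℝ) => lor p.1 p.2 := by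
    unfold lor; fun_prop
  have hK : IsCompact {X : Fin (n + 1) → ℝ | lor X X = -1 ∧ 0 ≤ X 0 ∧ X 0 ≤ ρ} := by
    refine (isCompact_univ_pi fun _ => isCompact_Icc (a := -ρ) (b := ρ)).of_isClosed_subset
      ((isClosed_eq (cl.comp (continuous_id.prodMk continuous_id)) continuous_const).inter
        ((isClosed_le continuous_const (continuous_apply 0)).inter
          (isClosed_le (continuous_apply 0) continuous_const))) fun X hX i _ => ?_
    obtain ⟨a, b, c⟩ := hX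
    refine abs_le.1 (Fin.cases (by rwa [abs_of_nonneg b]) (fun j => ?_) i)
    have := single_le_sum (f := fun i : Fin n => X i.succ * X i.succ)
      (fun _ _ => mul_self_nonneg _) (mem_univ j)
    unfold lor at a
    exact abs_le_of_sq_le_sq' (by nlinarith) (b.trans c) |> abs_le.2
  have uf : ∀ X : Fin (n + 1) → ℝ, lor X X = -1 → X 0 ≠ 0 := fun X a b => by
    have := sum_nonneg fun (i : Fin n) (_ : i ∈ univ) => mul_self_nonneg (X i.succ)
    unfold lor at a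
    rw [b] at a
    linarith
  have one : ∀ g ∈ Γ, g ≠ 1 → ∀ᶠ σ in 𝓝[>] (0 : ℝ), ∀ X, UF X → X 0 ≤ ρ →
      1 + σ ≤ -lor X (act g X) := fun g hg g1 => by
    have ca : Continuous (act g) := by unfold act; fun_prop
    suffices h : ∀ X ∈ {X : Fin (n + 1) → ℝ | lor X X = -1 ∧ 0 ≤ X 0 ∧ X 0 ≤ ρ},
        1 < -lor X (act g X) by
      obtain ⟨a, a1, a2⟩ := hK.exists_forall_le' (f := fun X => -lor X (act g X))
        (cl.comp (continuous_id.prodMk ca)).neg.continuousOn h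
      exact mem_of_superset (Ioc_mem_nhdsGT (sub_pos.2 a1)) fun σ hσ X h1 h2 =>
        le_trans (by linarith [hσ.2]) (a2 X ⟨h1.1, h1.2.le, h2⟩)
    refine fun X hX => not_le.1 fun e => g1 ?_
    have u : UF X := ⟨hX.1, lt_of_le_of_ne hX.2.1 (uf X hX.1).symm⟩
    have fx := u.eq (u.act (hO g hg) (hO _ (Γ.inv_mem hg))) e
    have pw : ∀ m : ℕ, act (g ^ m) X = X := fun m => by
      induction m with
      | zero => rw [pow_zero, act_one]
      | succ m ih => rw [pow_succ, act_mul, ← fx, ih]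
    refine htf g hg (finite_powers.1 ((finite_ball Γ hO hd (2 * X 0 * X 0)).subset ?_))
    rintro _ ⟨m, rfl⟩
    have m1 := Γ.pow_mem hg m
    have := u.low (uf_pt (hO _ m1))
    nth_rw 2 [← pw m] at this
    rw [pt_eq, lor_act (hO _ m1), lor_comm, lor_single_zero, neg_neg, ← pt_eq] at this
    exact ⟨m1, this⟩
  obtain ⟨σ, ⟨s1, s2⟩, s3⟩ := (((eventually_all_finite (finite_ball Γ hO hd (8 * ρ ^ 2))).2
    fun g hg => eventually_imp_distrib_left.2 (one g hg.1)).and (Ioc_mem_nhdsGT one_pos)).exists.imp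
      fun _ => And.symm
  have unit : ∀ g ∈ Γ, g ≠ 1 → ∀ X, UF X → 1 + σ ≤ -lor X (act g X) := fun g hg g1 X u => by
    obtain ⟨h, hh, hρ⟩ := hco X u
    have m1 := Γ.mul_mem (Γ.mul_mem hh hg) (Γ.inv_mem hh)
    have u' := u.act (hO h hh) (hO _ (Γ.inv_mem hh))
    have e : lor X (act g X) = lor (act h X) (act (h * g * h⁻¹) (act h X)) := by
      rw [← act_mul, inv_mul_cancel_right, act_mul, lor_act (hO h hh)]
    rw [e]
    by_contra hn
    refine hn (s3 _ ⟨m1, ?_⟩ (fun e => g1 (by simpa using e)) _ u' hρ)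
    have u'' := u'.act (hO _ m1) (hO _ (Γ.inv_mem m1))
    have b1 := u'.low u''
    have b2 := u''.low (uf_pt (hO _ m1))
    rw [pt_eq, lor_act (hO _ m1), lor_comm, lor_single_zero, neg_neg, ← pt_eq] at b2
    have p1 := u'.2
    have p2 := u''.2
    have p3 := p1.trans_le hρ
    have b3 : act (h * g * h⁻¹) (act h X) 0 ≤ 2 * ρ * 2 := b1.trans (by
      have := u'.pos u''
      gcongr
      linarith [not_le.1 hn])
    calc _ ≤ _ := b2
      _ ≤ 2 * (2 * ρ * 2) * ρ := by gcongr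
      _ = _ := by ring
  refine ⟨σ, s1, fun g hg g1 Y hY => ?_⟩
  obtain ⟨a, a1, a2⟩ : ∃ a : ℝ, a ^ 2 * -lor Y Y = 1 ∧ 0 ≤ a * Y 0 := by
    have e : (√(-lor Y Y))⁻¹ ^ 2 * -lor Y Y = 1 := by
      rw [inv_pow, Real.sq_sqrt hY.le, inv_mul_cancel₀ hY.ne']
    rcases le_total 0 (Y 0) with o | o
    · exact ⟨_, e, by positivity⟩
    · exact ⟨-(√(-lor Y Y))⁻¹, by rwa [neg_sq], mul_nonneg_of_nonpos_of_nonpos
        (neg_nonpos.2 (by positivity)) o⟩
  have l1 : lor (a • Y) (a • Y) = -1 := by rw [lor_smul]; linarith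
  have := unit g hg g1 (a • Y) ⟨l1, lt_of_le_of_ne a2 (uf _ l1).symm⟩
  rw [act_smul, lor_smul] at this
  calc _ ≤ -(a ^ 2 * lor Y (act g Y)) * -lor Y Y := by gcongr
    _ = a ^ 2 * -lor Y Y * -lor Y (act g Y) := by ring
    _ = _ := by rw [a1, one_mul]

lemma exists_geo {k : ℕ} (hk : 2 ≤ k) (Γ : Subgroup (GL (Fin (k + 2)) ℝ)) (hO : ∀ g ∈ Γ, IsLor g)
    (hd : DiscreteTopology Γ) (htf : ∀ g ∈ Γ, IsOfFinOrder g → g = 1) {ρ : ℝ}
    (hco : ∀ X, UF X → ∃ g ∈ Γ, act g X 0 ≤ ρ) : ∃ top ball C c σ,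
    Geo (fun g : Γ => pt g.1 0) (fun g : Γ => kl (pt g.1)) top ball k C c σ := by
  obtain ⟨σ, σ0, hσ⟩ := systole Γ hO hd htf hco
  obtain ⟨A, A0, hA⟩ := sum_inv_le hk Γ hO hd
  choose! f f1 f2 using hco
  have L : ∀ g : Γ, IsLor g.1 := fun g => hO _ g.2
  have U : ∀ g : Γ, UF (pt g.1) := fun g => uf_pt (L g)
  let y : Γ → ℝ → Fin (k + 2) → ℝ := fun x u => vec ((1 - u⁻¹ ^ 2) • kl (pt x.1))
  have hy : ∀ x u, 1 ≤ u → UF (y x u) ∧ kl (y x u) = (1 - u⁻¹ ^ 2) • kl (pt x.1) ∧ y x u 0 ≤ u :=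
    fun x u hu => vec_spec (U x).norm_le hu
  have ρ1 : 1 ≤ ρ := by
    have := f2 _ (U 1)
    rw [← pt_mul] at this
    exact (one_le_pt (hO _ (Γ.mul_mem (f1 _ (U 1)) (1 : Γ).2))).trans this
  classical
  let top : Γ → ℝ → Γ := fun x u => if h : 1 ≤ u then ⟨f (y x u), f1 _ (hy x u h).1⟩⁻¹ else 1
  have key : ∀ x u, 1 ≤ u → ∀ Z, UF Z → act ((top x u)⁻¹ : Γ).1 Z 0 ≤ 2 * ρ * -lor (y x u) Z :=
    fun x u hu Z hZ => (hy x u hu).1.tri hZ (L _) (hO _ (Γ.inv_mem (Subtype.coe_prop _))) (by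
      simp only [top, dif_pos hu, inv_inv]
      exact f2 _ (hy x u hu).1)
  have fin : ∀ R : ℝ, {g : Γ | pt g.1 0 ≤ R}.Finite := fun R =>
    ((finite_ball Γ hO hd R).preimage Subtype.val_injective.injOn).subset fun g hg => ⟨g.2, hg⟩
  have c4 : 2 * ρ ≤ 4 * ρ ^ 2 := by nlinarith
  have iv : ∀ {u : ℝ}, 1 ≤ u → 0 ≤ u⁻¹ ^ 2 ∧ u⁻¹ ^ 2 ≤ 1 := fun hu =>
    ⟨sq_nonneg _, pow_le_one₀ (by positivity) (inv_le_one_of_one_le₀ hu)⟩
  refine ⟨top, fun R => (fin R).toFinset, A * 2 ^ k, 4 * ρ ^ 2, σ, fun g => one_le_pt (L g),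
    fun g => pt_inv_zero (L g), fun g h => ?_, fun g h => ?_, fun R g => (fin R).mem_toFinset,
    fun R hR => ?_, by linarith, fun x u hu => ?_, fun x u hu => ?_, fun x x' u u' hu hu' => ?_, σ0,
    fun m hm x α => ?_⟩
  · rw [← (U g).gram (U h), lor_pt_pt (L g), neg_neg]; rfl
  · have := (U g⁻¹).up (U h)
    rwa [lor_pt_pt (L _), neg_neg, Subgroup.coe_inv, inv_inv, pt_inv_zero (L g)] at this
  · obtain ⟨j, j1, j2⟩ := exists_nat_pow_near hR one_lt_two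
    have a1 : (fin R).toFinset.card ≤ (finite_ball Γ hO hd (2 ^ (j + 1))).toFinset.card :=
      card_le_card_of_injOn Subtype.val (fun g hg => (Set.Finite.mem_toFinset _).2
        ⟨g.2, ((fin R).mem_toFinset.1 hg).trans j2.le⟩) Subtype.val_injective.injOn
    have a2 := card_nsmul_le_sum (finite_ball Γ hO hd (2 ^ (j + 1))).toFinset (fun g => 1 / pt g 0)
      (1 / 2 ^ (j + 1)) fun g hg => one_div_le_one_div_of_le (hO g ((Set.Finite.mem_toFinset _).1 hg).1).2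
        ((Set.Finite.mem_toFinset _).1 hg).2
    have a3 := a2.trans (hA (j + 1))
    rw [nsmul_eq_mul, mul_one_div, div_le_iff₀ (by positivity), mul_assoc, ← pow_succ,
      Nat.sub_add_cancel (by omega)] at a3
    calc _ ≤ A * (2 ^ (j + 1)) ^ k := (Nat.cast_le.2 a1).trans a3
      _ ≤ A * (2 * R) ^ k := by gcongr; rw [pow_succ]; linarith
      _ = _ := by ring
  · have a := key x u hu _ (U 1)
    rw [← pt_mul, lor_comm, Subgroup.coe_one, mul_one, Subgroup.coe_inv, pt_inv_zero (L _), pt_eq 1,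
      act_one, lor_single_zero, neg_neg] at a
    have := (hy x u hu).1.2
    exact a.trans (by gcongr; exact (hy x u hu).2.2)
  · have a := key x u hu _ (U x)
    rw [← pt_mul] at a
    refine a.trans (mul_le_mul c4 ?_ ((hy x u hu).1.pos (U x)).le (by positivity))
    have p := (U x).2
    have p' := (hy x u hu).1.2
    rw [lor_kl p'.ne' p.ne', (hy x u hu).2.1, real_inner_smul_left, real_inner_self_eq_norm_sq,
      (U x).norm]
    calc _ ≤ y x u 0 * pt x.1 0 * (u⁻¹ ^ 2 + (pt x.1 0)⁻¹ ^ 2) := by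
          gcongr
          nlinarith [mul_nonneg (iv hu).1 (sq_nonneg (pt x.1 0)⁻¹)]
      _ ≤ u * pt x.1 0 * (u⁻¹ ^ 2 + (pt x.1 0)⁻¹ ^ 2) := by gcongr; exact (hy x u hu).2.2
      _ = _ := by field_simp
  · have a := key x u hu _ (U (top x' u'))
    have b := key x' u' hu' _ (hy x u hu).1
    rw [act_zero (L _), Subgroup.coe_inv, inv_inv, lor_comm] at b
    rw [← pt_mul] at a
    have p := (hy x u hu).1.2
    have p' := (hy x' u' hu').1.2
    have e := (U x).gram (U x')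
    rw [lor_kl (U x).2.ne' (U x').2.ne', mul_div_assoc,
      mul_right_inj' (mul_pos (U x).2 (U x').2).ne'] at e
    have b2 : -lor (y x' u') (y x u) ≤ u * u' * (u⁻¹ ^ 2 + u'⁻¹ ^ 2 + ‖kl (pt x.1) - kl (pt x'.1)‖ ^ 2 +
        (pt x.1 0)⁻¹ ^ 2 + (pt x'.1 0)⁻¹ ^ 2) := by
      rw [lor_comm, lor_kl p.ne' p'.ne', (hy x u hu).2.1, (hy x' u' hu').2.1, real_inner_smul_left,
        real_inner_smul_right]
      refine le_trans (mul_le_mul_of_nonneg_left ?_ (mul_pos p p').le) (mul_le_mul_of_nonneg_right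
        (mul_le_mul (hy x u hu).2.2 (hy x' u' hu').2.2 p'.le (by linarith)) (by positivity))
      obtain ⟨z, hz⟩ : ∃ z, z = ‖kl (pt x.1) - kl (pt x'.1)‖ ^ 2 + (pt x.1 0)⁻¹ ^ 2 +
        (pt x'.1 0)⁻¹ ^ 2 := ⟨_, rfl⟩
      have z0 : 0 ≤ z := by rw [hz]; positivity
      have i1 := iv hu
      have i2 := iv hu'
      have w1 : (1 - u⁻¹ ^ 2) * (1 - u'⁻¹ ^ 2) ≤ 1 :=
        mul_le_one₀ (by linarith) (by linarith) (by linarith)
      have w2 := mul_le_mul_of_nonneg_right w1 z0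
      rw [show ⟪kl (pt x.1), kl (pt x'.1)⟫ = 1 - z / 2 by linarith]
      nlinarith [mul_nonneg i1.1 i2.1]
    calc _ ≤ _ := a
      _ ≤ 2 * ρ * (2 * ρ * _) := mul_le_mul_of_nonneg_left
          (b.trans (mul_le_mul_of_nonneg_left b2 (by linarith))) (by linarith)
      _ = _ := by ring
  · have e : ∀ m : Γ, ∑ a, ∑ b, α a * α b * pt ((x a)⁻¹ * (m * x b) : Γ).1 0 =
        -lor (α 0 • pt (x 0).1 + α 1 • pt (x 1).1 + α 2 • pt (x 2).1)
          (act m.1 (α 0 • pt (x 0).1 + α 1 • pt (x 1).1 + α 2 • pt (x 2).1)) := fun m => by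
      have : act m.1 (α 0 • pt (x 0).1 + α 1 • pt (x 1).1 + α 2 • pt (x 2).1) =
          α 0 • pt (m.1 * (x 0).1) + α 1 • pt (m.1 * (x 1).1) + α 2 • pt (m.1 * (x 2).1) := by
        simp only [pt_mul, act, Matrix.mulVec_add, Matrix.mulVec_smul]
      simp only [this, lor_lin, lor_comm (pt (x _).1) (_ + _), Fin.sum_univ_three]
      simp only [lor_comm (pt (m.1 * _)), lor_pt_pt (L _), Subgroup.coe_mul, Subgroup.coe_inv]
      ring
    have e1 := e 1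
    simp only [one_mul, Subgroup.coe_one, act_one] at e1
    rw [e1, e]
    exact hσ _ m.2 (fun o => hm (Subtype.ext o)) _

end Pool.Agent.Lib.MP_60b36a_gt.Sp
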