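import Pool.Agent.Lib.MP_60b36a_gt.Sp.Win
import Pool.Agent.Lib.MP_60b36a_gt.Sp.Dor

/-! One scale of the averaging argument. -/

set_option autoImplicit false

namespace Pool.Agent.Lib.MP_60b36a_gt.Sp

open Finset
open scoped Classical

variable {G E Q : Type*} [Group G] [NormedAddCommGroup E] [InnerProductSpace ℝ E] [Group Q]
  {r : G → ℝ} {ξ : G → E} {top : G → ℝ → G} {ball : ℝ → Finset G} {k : ℕ} {C c σ : ℝ}
  {d : Q → Q → ℕ} {δ e : ℕ}

/-- A geodesic word path of length `n ≤ T` inside the fibre over `q`. -/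
structure Path (r : G → ℝ) (ξ : G → E) (π : G →* Q) (S c₀ : ℝ) (T : ℕ) (q : Q) (x : ℕ → G)
    (n : ℕ) : Prop where
  len : n ≤ T
  cos : ∀ i, π (x i) = q
  step : ∀ i < n, r ((x i)⁻¹ * x (i + 1)) ≤ S
  const : ∀ i, n ≤ i → x i = x n
  iso : ∀ i ≤ n, ∀ i' ≤ n, ∀ j ≤ n, ∀ j' ≤ n, (x i)⁻¹ * x i' = (x j)⁻¹ * x j' →
    ((i : ℤ) - i').natAbs = ((j : ℤ) - j').natAbs
  far : c₀ ≤ ‖ξ (x n) - ξ (x 0)‖

/-- record increments of the distance to the starting point -/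
noncomputable def mu (ξ : G → E) (x : ℕ → G) : ℕ → ℝ := inc fun i => ‖ξ (x i) - ξ (x 0)‖

/-- times of depth comparable with `T` -/
noncomputable def mid (r : G → ℝ) (K T : ℝ) (x : ℕ → G) (n : ℕ) : Finset ℕ :=
  (range n).filter fun i => T ≤ K * r (x i) ∧ r (x i) ≤ K * T

/-- fibres with many points in the ball -/
def Heavy (π : G →* Q) (B : Finset G) (w : ℝ) (y : Q) : Prop :=
  w < ((B.filter fun g => π g = y).card : ℝ)

omit [InnerProductSpace ℝ E] in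
lemma f_lip (a b z : E) : |‖a - z‖ - ‖b - z‖| ≤ ‖a - b‖ := by
  simpa using abs_norm_sub_norm_le (a - z) (b - z)

variable {π : G →* Q} {S c₀ : ℝ} {T : ℕ} {q : Q} {x : ℕ → G} {n : ℕ}

omit [InnerProductSpace ℝ E] in
lemma Path.f_step (h : Geo r ξ top ball k C c σ) (P : Path r ξ π S c₀ T q x n) {i : ℕ} (hi : i < n) :
    |‖ξ (x (i + 1)) - ξ (x 0)‖ - ‖ξ (x i) - ξ (x 0)‖| ≤ 2 * S / r (x i) :=
  (f_lip _ _ _).trans (h.step (P.step i hi))

omit [InnerProductSpace ℝ E] in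
lemma Path.mid_step (h : Geo r ξ top ball k C c σ) (P : Path r ξ π S c₀ T q x n) (hS : 0 ≤ S)
    {K R : ℝ} (hR : 0 < R) {i : ℕ} (hi : i ∈ mid r K R x n) :
    |‖ξ (x (i + 1)) - ξ (x 0)‖ - ‖ξ (x i) - ξ (x 0)‖| ≤ 2 * S * K / R := by
  obtain ⟨a, b, -⟩ := mem_filter.1 hi
  refine (P.f_step h (mem_range.1 a)).trans ?_
  rw [div_le_div_iff₀ (h.pos _) hR, mul_assoc (2 * S)]
  gcongr

lemma Geo.scale (h : Geo r ξ top ball k C c σ) (H : Hyp d δ e) (π : G →* Q) {S K W θ : ℝ}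
    (R m₀ : ℕ) (hS : 0 ≤ S) (hK : 1 ≤ K) (hW : 0 ≤ W) (hθ : 0 < θ) :
    ∃ m, m₀ ≤ m ∧ ∃ ε : ℝ, 0 < ε ∧ ∃ j₀ : ℕ, K ≤ 2 ^ j₀ ∧ ∀ (s j : ℕ) (c₀ : ℝ) (q : Q) (x : ℕ → G) (n : ℕ),
      j₀ ≤ j → Path r ξ π S c₀ (2 ^ (s + m + j)) q x n →
      ∑ i ∈ (mid r K (2 ^ (s + m + j)) x n).filter (fun i => d 1 (π (top (x i) (2 ^ (s + m)))) +
        d (π (top (x i) (2 ^ (s + m)))) q ≤ d 1 q + R), mu ξ x i ≤
      θ + ∑ i ∈ (mid r K (2 ^ (s + m + j)) x n).filter (fun i => Heavy π (ball (2 * c * (K * 2 ^ j)))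
          (W * 2 ^ j) (π ((top (x i) (2 ^ (s + m)))⁻¹ * x i))), mu ξ x i +
        2 * S * K * 2 ^ (s + m + j) * (enS (fun i => ξ (x i)) (2 ^ s) (m + j) / (2 ^ m) ^ 2 +
          devS (fun i => ξ (x i)) (2 ^ s) (m + j) * (2 ^ m / ε) ^ 2) := by
  obtain ⟨θ₁, θ0, θ1⟩ : ∃ θ₁, 0 < θ₁ ∧ θ = θ₁ * (5 + 2 * S * K) :=
    ⟨θ / (5 + 2 * S * K), by positivity, by field_simp⟩
  obtain ⟨m, m0, ε', L, ε0, hw⟩ := h.window H π R m₀ hK hW θ0
  obtain ⟨j₀, hj₀⟩ := pow_unbounded_of_one_lt (max (max K L) (2 * S * K / θ₁)) one_lt_two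
  refine ⟨m, m0, min ε' θ₁, by positivity, j₀,
    ((le_max_left _ _).trans (le_max_left _ _)).trans hj₀.le, fun s j c₀ q x n hj P => ?_⟩
  obtain ⟨ε, hε⟩ : ∃ ε, ε = min ε' θ₁ := ⟨_, rfl⟩
  have e0 : 0 < ε := by rw [hε]; positivity
  have e1 : ε ≤ ε' := hε ▸ min_le_left _ _
  have e2 : ε ≤ θ₁ := hε ▸ min_le_right _ _
  rw [← hε]
  have hl := hj₀.le.trans (pow_le_pow_right₀ one_le_two hj)
  have lL : L ≤ 2 ^ j := ((le_max_right _ _).trans (le_max_left _ _)).trans hl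
  have lS : 2 * S * K ≤ 2 ^ j * θ₁ := (div_le_iff₀ θ0).1 ((le_max_right _ _).trans hl)
  have eT : (2 : ℝ) ^ (s + m + j) = 2 ^ (s + m) * 2 ^ j := pow_add _ _ _
  have eu : (2 : ℝ) ^ (s + m) = 2 ^ s * 2 ^ m := pow_add _ _ _
  have eΛ : (2 : ℝ) ^ (m + j) = 2 ^ m * 2 ^ j := pow_add _ _ _
  have e4 : (4 : ℝ) ^ (m + j) = (2 ^ m * 2 ^ j) ^ 2 := by
    rw [← eΛ, ← pow_mul, mul_comm, pow_mul]; norm_num
  have u1 : (1 : ℝ) ≤ 2 ^ (s + m) := one_le_pow₀ one_le_two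
  have M1 : (1 : ℝ) ≤ 2 ^ m := one_le_pow₀ one_le_two
  set p : ℕ → E := fun i => ξ (x i) with hp
  set D := mid r K (2 ^ (s + m + j)) x n with hD
  set DI := D.filter fun i => d 1 (π (top (x i) (2 ^ (s + m)))) +
    d (π (top (x i) (2 ^ (s + m)))) q ≤ d 1 q + R with hDI
  set DH := D.filter fun i => Heavy π (ball (2 * c * (K * 2 ^ j)))
    (W * 2 ^ j) (π ((top (x i) (2 ^ (s + m)))⁻¹ * x i)) with hDH
  have mu0 : ∀ i, 0 ≤ mu ξ x i := fun i => inc_nonneg _ i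
  have T0 : (0 : ℝ) < 2 ^ (s + m + j) := by positivity
  have mu1 : ∀ i ∈ D, mu ξ x i ≤ 2 * S * K / 2 ^ (s + m + j) := fun i hi =>
    (inc_le _ i).trans (P.mid_step h hS T0 hi)
  let Gd : ℕ → ℕ → Prop := fun a i => i ∈ DI ∧ i ∉ DH ∧
    ‖vel p a (m + j)‖ ≤ 2 ^ m / 2 ^ (s + m + j) ∧
    ‖p i - p a - ((i : ℝ) - a) • vel p a (m + j)‖ ≤ ε / 2 ^ (s + m)
  have win : ∀ a, ∑ t ∈ range (2 ^ (m + j)), (if Gd a (a + t) then mu ξ x (a + t) else 0) ≤
      θ / 2 ^ s := fun a => by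
    have e3 := sum_Ico_eq_sum_range (fun i => if Gd a i then mu ξ x i else 0) a (a + 2 ^ (m + j))
    rw [Nat.add_sub_cancel_left] at e3
    rw [← e3, ← sum_filter]
    set U := (Ico a (a + 2 ^ (m + j))).filter (Gd a)
    have hU : ∀ i ∈ U, (a ≤ i ∧ (i : ℝ) ≤ a + 2 ^ m * 2 ^ j) ∧ Gd a i := fun i hi => by
      obtain ⟨a1, a2⟩ := mem_filter.1 hi
      refine ⟨⟨(mem_Ico.1 a1).1, ?_⟩, a2⟩
      rw [← eΛ]
      exact_mod_cast (mem_Ico.1 a1).2.le
    rcases U.eq_empty_or_nonempty with h0 | ⟨i₀, hi₀⟩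
    · rw [h0, sum_empty]; positivity
    have z0 : 0 ≤ θ₁ / 2 ^ s := by positivity
    have z1 : 0 ≤ θ₁ / 2 ^ s * (2 * S * K) := by positivity
    have z2 : θ / 2 ^ s = 5 * (θ₁ / 2 ^ s) + θ₁ / 2 ^ s * (2 * S * K) := by rw [θ1]; ring
    rcases le_total (θ₁ / (2 ^ (s + m) * 2 ^ j)) ‖vel p a (m + j)‖ with hv | hv
    · have a1 := hw (2 ^ j) (2 ^ (s + m)) x U q a (p a) (vel p a (m + j)) lL u1 hv
        (eT ▸ (hU i₀ hi₀).2.2.2.1) (fun i hi i' hi' j hj j' hj' => by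
          have b : ∀ i ∈ U, i ≤ n := fun i hi => (mem_range.1 (mem_filter.1 (mem_filter.1 (hU i hi).2.1).1).1).le
          exact P.iso i (b i hi) i' (b i' hi') j (b j hj) j' (b j' hj'))
        fun i hi => by
          obtain ⟨⟨b1, b2⟩, b3, b5, -, b6⟩ := hU i hi
          obtain ⟨b3, b4⟩ := mem_filter.1 b3
          obtain ⟨-, b7, b8⟩ := mem_filter.1 b3
          exact ⟨P.cos i, b1, b2, eT ▸ b7, eT ▸ b8, b6.trans (by gcongr), b4,
            not_lt.1 fun b9 => b5 (mem_filter.2 ⟨b3, b9⟩)⟩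
      have a2 := sum_le_card_nsmul U _ _ fun i hi => mu1 i (mem_filter.1 (hU i hi).2.1).1
      rw [nsmul_eq_mul] at a2
      have a3 : (U.card : ℝ) * (2 * S * K / 2 ^ (s + m + j)) ≤
          θ₁ * 2 ^ m * 2 ^ j * (2 * S * K / 2 ^ (s + m + j)) := by gcongr
      have a4 : θ₁ * 2 ^ m * 2 ^ j * (2 * S * K / 2 ^ (s + m + j)) = θ₁ / 2 ^ s * (2 * S * K) := by
        rw [eT, eu]; field_simp
      linarith
    · have a1 := sum_inc_le (fun i => ‖ξ (x i) - ξ (x 0)‖) U (c := ‖p a - ξ (x 0)‖)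
        (ρ := 2 * (θ₁ / 2 ^ s)) (σ := θ₁ / 2 ^ s) (by positivity) z0 fun i hi => by
          obtain ⟨⟨b1, b2⟩, b3, -, -, b6⟩ := hU i hi
          have b1' : (a : ℝ) ≤ i := by exact_mod_cast b1
          refine ⟨(f_lip _ _ _).trans ?_, (P.mid_step h hS T0 (mem_filter.1 b3).1).trans ?_⟩
          · have c1 : ‖((i : ℝ) - a) • vel p a (m + j)‖ ≤
                2 ^ m * 2 ^ j * (θ₁ / (2 ^ (s + m) * 2 ^ j)) := by
              rw [norm_smul, Real.norm_of_nonneg (by linarith)]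
              gcongr
              linarith
            have c2 : (2 : ℝ) ^ m * 2 ^ j * (θ₁ / (2 ^ (s + m) * 2 ^ j)) = θ₁ / 2 ^ s := by
              rw [eu]; field_simp
            have c3 : ε / 2 ^ (s + m) ≤ θ₁ / 2 ^ s :=
              div_le_div₀ θ0.le e2 (by positivity) (pow_le_pow_right₀ one_le_two (by omega))
            have c4 := norm_add_le (p i - p a - ((i : ℝ) - a) • vel p a (m + j))
              (((i : ℝ) - a) • vel p a (m + j))
            rw [sub_add_cancel] at c4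
            change ‖p i - p a‖ ≤ _
            linarith
          · calc 2 * S * K / 2 ^ (s + m + j) ≤ 2 ^ m * (2 ^ j * θ₁) / 2 ^ (s + m + j) := by
                  gcongr ?_ / _
                  exact lS.trans (le_mul_of_one_le_left (by positivity) M1)
              _ = _ := by rw [eT, eu]; field_simp
      change ∑ i ∈ U, mu ξ x i ≤ _ at a1
      linarith
  have pt : ∀ a t : ℕ, (if a + t ∈ DI then mu ξ x (a + t) else 0) ≤
      (if Gd a (a + t) then mu ξ x (a + t) else 0) + (if a + t ∈ DH then mu ξ x (a + t) else 0) +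
      2 * S * K * 2 ^ (s + m + j) * (‖vel p a (m + j)‖ ^ 2 / (2 ^ m) ^ 2 +
        ‖dev p a (m + j) t‖ ^ 2 / 4 ^ (m + j) * (2 ^ m / ε) ^ 2) := fun a t => by
    have n1 : 0 ≤ if Gd a (a + t) then mu ξ x (a + t) else 0 := by split_ifs; exacts [mu0 _, le_rfl]
    have n2 : 0 ≤ if a + t ∈ DH then mu ξ x (a + t) else 0 := by
      split_ifs; exacts [mu0 _, le_rfl]
    have n3 : 0 ≤ ‖vel p a (m + j)‖ ^ 2 / (2 ^ m) ^ 2 := by positivity
    have n4 : 0 ≤ ‖dev p a (m + j) t‖ ^ 2 / 4 ^ (m + j) * (2 ^ m / ε) ^ 2 := by positivity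
    have n5 : 0 ≤ 2 * S * K * 2 ^ (s + m + j) * (‖vel p a (m + j)‖ ^ 2 / (2 ^ m) ^ 2 +
        ‖dev p a (m + j) t‖ ^ 2 / 4 ^ (m + j) * (2 ^ m / ε) ^ 2) := by positivity
    by_cases h1 : a + t ∈ DI
    swap
    · rw [if_neg h1]; positivity
    rw [if_pos h1]
    have b1 := (mem_filter.1 h1).1
    by_cases h2 : a + t ∈ DH
    · rw [if_pos h2]; linarith
    by_cases h3 : Gd a (a + t)
    · rw [if_pos h3]; linarith
    have key : 1 / (2 ^ (s + m + j)) ^ 2 ≤ ‖vel p a (m + j)‖ ^ 2 / (2 ^ m) ^ 2 +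
        ‖dev p a (m + j) t‖ ^ 2 / 4 ^ (m + j) * (2 ^ m / ε) ^ 2 := by
      by_cases h4 : ‖vel p a (m + j)‖ ≤ 2 ^ m / 2 ^ (s + m + j)
      · have h5 : ε / 2 ^ (s + m) ≤ ‖dev p a (m + j) t‖ := (not_le.1 fun h5 => h3 ⟨h1, h2, h4, by
          rwa [Nat.cast_add, add_sub_cancel_left]⟩).le
        calc _ = (ε / 2 ^ (s + m)) ^ 2 / 4 ^ (m + j) * (2 ^ m / ε) ^ 2 := by rw [eT, e4]; field_simp
          _ ≤ ‖dev p a (m + j) t‖ ^ 2 / 4 ^ (m + j) * (2 ^ m / ε) ^ 2 := by gcongr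
          _ ≤ _ := le_add_of_nonneg_left n3
      · have h5 := (not_le.1 h4).le
        calc _ = ((2 : ℝ) ^ m / 2 ^ (s + m + j)) ^ 2 / (2 ^ m) ^ 2 := by field_simp
          _ ≤ ‖vel p a (m + j)‖ ^ 2 / (2 ^ m) ^ 2 := by gcongr
          _ ≤ _ := le_add_of_nonneg_right n4
    have k2 := mul_le_mul_of_nonneg_left key (by positivity : 0 ≤ 2 * S * K * 2 ^ (s + m + j))
    have k3 : 2 * S * K * 2 ^ (s + m + j) * (1 / (2 ^ (s + m + j)) ^ 2) =
        2 * S * K / 2 ^ (s + m + j) := by field_simp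
    linarith [mu1 _ b1]
  have ex : ∀ Z ⊆ D, ∑ i ∈ Z, mu ξ x i = ∑ w ∈ range (2 ^ s), ∑ t ∈ range (2 ^ (m + j)),
      if w * 2 ^ (m + j) + t ∈ Z then mu ξ x (w * 2 ^ (m + j) + t) else 0 := fun Z hZ => by
    rw [← sum_range_mul' fun i => if i ∈ Z then mu ξ x i else 0, sum_ite_mem,
      inter_eq_right.2 fun i hi => mem_range.2 ?_]
    rw [← pow_add, ← add_assoc]
    exact (mem_range.1 (mem_filter.1 (hZ hi)).1).trans_le P.len
  have t1 : θ = ∑ _w ∈ range (2 ^ s), θ / 2 ^ s := by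
    rw [sum_const, card_range, nsmul_eq_mul]; push_cast; field_simp
  rw [ex DI (filter_subset _ _), ex DH (filter_subset _ _), t1, enS, devS, sum_div, sum_mul, ← sum_add_distrib, ← sum_add_distrib, mul_sum,
    ← sum_add_distrib]
  refine sum_le_sum fun w _ => (sum_le_sum fun t _ => pt _ t).trans ?_
  rw [sum_add_distrib, sum_add_distrib, ← mul_sum, sum_add_distrib, sum_const, card_range,
    nsmul_eq_mul, ← sum_mul, ← sum_div, ← mul_div_assoc]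
  push_cast
  linarith [win (w * 2 ^ (m + j))]

omit [InnerProductSpace ℝ E] in
lemma Geo.heavy (h : Geo r ξ top ball k C c σ) (hk : 1 ≤ k) (π : G →* Q) {S K W c₀ u l : ℝ} {T : ℕ}
    (hS : 0 ≤ S) (hK : 1 ≤ K) (hW : 0 < W) (hu : 1 ≤ u) (hl : K ≤ l) (F : Finset Q)
    (X : Q → ℕ → G) (N : Q → ℕ) (P : ∀ q ∈ F, Path r ξ π S c₀ T q (X q) (N q)) :
    ∑ q ∈ F, ∑ i ∈ (mid r K (u * l) (X q) (N q)).filter (fun i => Heavy π (ball (2 * c * (K * l)))
      (W * l) (π ((top (X q i) u)⁻¹ * X q i))), mu ξ (X q) i ≤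
    C ^ 2 * (2 * c ^ 2 * K) ^ k * (8 * c + 2 * S) / W * (u * l) ^ (k - 1) := by
  have c1 := h.c1
  have C0 := h.C0
  have l0 : 0 < l := by linarith
  have u0 : 0 < u := by linarith
  set Hv := Heavy π (ball (2 * c * (K * l))) (W * l) with hHv
  have s1 : ∀ q ∈ F, ∑ i ∈ (mid r K (u * l) (X q) (N q)).filter (fun i =>
      Hv (π ((top (X q i) u)⁻¹ * X q i))), mu ξ (X q) i ≤
      ∑ g ∈ ball (c * u), if Hv ((π g)⁻¹ * q) then (8 * c + 2 * S) / u else 0 := fun q hq => by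
    rw [← sum_fiberwise_of_maps_to (g := fun i => top (X q i) u) (t := ball (c * u))
      fun i _ => (h.mem _ _).2 (h.t1 _ _ hu)]
    refine sum_le_sum fun g _ => ?_
    set U := ((mid r K (u * l) (X q) (N q)).filter fun i =>
      Hv (π ((top (X q i) u)⁻¹ * X q i))).filter fun i => top (X q i) u = g
    rcases U.eq_empty_or_nonempty with h0 | ⟨i₀, hi₀⟩
    · rw [h0, sum_empty]; positivity
    have hU : ∀ i ∈ U, i < N q ∧ u ≤ r (X q i) ∧ top (X q i) u = g ∧ Hv ((π g)⁻¹ * q) := fun i hi => by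
      obtain ⟨a1, a2⟩ := mem_filter.1 hi
      obtain ⟨a3, a4⟩ := mem_filter.1 a1
      obtain ⟨a5, a6, -⟩ := mem_filter.1 a3
      rw [a2, map_mul, map_inv, (P q hq).cos] at a4
      have := mul_le_mul_of_nonneg_left hl u0.le
      exact ⟨mem_range.1 a5, le_of_mul_le_mul_left (by linarith) (by linarith : 0 < K), a2, a4⟩
    rw [if_pos (hU i₀ hi₀).2.2.2]
    refine (sum_inc_le _ U (c := ‖ξ (X q i₀) - ξ (X q 0)‖) (ρ := 4 * c / u) (σ := 2 * S / u)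
      (by positivity) (by positivity) fun i hi => ⟨(f_lip _ _ _).trans ?_, ?_⟩).trans_eq (by ring)
    · exact h.same_top hu (hU i hi).2.1 (hU i₀ hi₀).2.1 ((hU i hi).2.2.1.trans (hU i₀ hi₀).2.2.1.symm)
    · refine ((P q hq).f_step h (hU i hi).1).trans ?_
      gcongr
      exact (hU i hi).2.1
  have s2 : ∀ g : G, ((F.filter fun q => Hv ((π g)⁻¹ * q)).card : ℝ) ≤
      C * (2 * c * (K * l)) ^ k / (W * l) := fun g => by
    rw [le_div_iff₀ (by positivity)]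
    refine le_trans ?_ (h.card _ (by nlinarith [mul_le_mul hK (hK.trans hl) zero_le_one (by linarith)]))
    have a1 := card_nsmul_le_sum (F.filter fun q => Hv ((π g)⁻¹ * q)) (fun q =>
      (((ball (2 * c * (K * l))).filter fun z => π g * π z = q).card : ℝ)) (W * l) fun q hq => by
        have := (mem_filter.1 hq).2
        simp only [hHv, Heavy, eq_inv_mul_iff_mul_eq] at this
        exact this.le
    rw [nsmul_eq_mul] at a1
    refine a1.trans ?_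
    rw [← Nat.cast_sum, Nat.cast_le]
    exact (sum_card_fiberwise_eq_card_filter _ _ fun z => π g * π z).trans_le (card_filter_le _ _)
  refine (sum_le_sum s1).trans ?_
  rw [sum_comm]
  refine (sum_le_card_nsmul _ _ (C * (2 * c * (K * l)) ^ k / (W * l) * ((8 * c + 2 * S) / u))
    fun g _ => ?_).trans ?_
  · rw [← sum_filter, sum_const, nsmul_eq_mul]
    gcongr
    exact s2 g
  · rw [nsmul_eq_mul]
    obtain ⟨k, rfl⟩ : ∃ j, k = j + 1 := ⟨k - 1, by omega⟩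
    calc _ ≤ C * (c * u) ^ (k + 1) * (C * (2 * c * (K * l)) ^ (k + 1) / (W * l) * ((8 * c + 2 * S) / u)) := by
          gcongr
          exact h.card _ (by nlinarith)
      _ = _ := by
          rw [Nat.add_sub_cancel]
          simp only [mul_pow, ← pow_mul, pow_succ u, pow_succ l]
          field_simp
          ring

end Pool.Agent.Lib.MP_60b36a_gt.Sp
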