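import Pool.Agent.Lib.MP_60b36a_gt.Sp.Geo
import Pool.Agent.Lib.MP_60b36a_gt.NoFix

/-! The window lemma: a nearly linear window of a geodesic word has few good times. -/

set_option autoImplicit false

namespace Pool.Agent.Lib.MP_60b36a_gt.Sp

open Finset

lemma three_sep (U : Finset ℕ) (N : ℕ) (h : 2 * N < U.card) :
    ∃ i : Fin 3 → ℕ, (∀ a, i a ∈ U) ∧ i 0 + N ≤ i 1 ∧ i 1 + N ≤ i 2 := by
  have hU : U.Nonempty := card_pos.1 (by omega)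
  by_contra hn
  have hs : U ⊆ Ico (U.min' hU) (U.min' hU + N) ∪ Ioc (U.max' hU - N) (U.max' hU) := fun i hi => by
    have a := U.min'_le i hi
    have b := U.le_max' i hi
    have c : ¬ (U.min' hU + N ≤ i ∧ i + N ≤ U.max' hU) := fun c =>
      hn ⟨![U.min' hU, i, U.max' hU], fun a => by
        fin_cases a
        exacts [U.min'_mem hU, hi, U.max'_mem hU], c⟩
    rw [mem_union, mem_Ico, mem_Ioc]
    by_contra hc
    have h0 : U.max' hU ≤ N := by omega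
    have h1 : U ⊆ range (N + 1) := fun j hj => mem_range.2 (by have := U.le_max' j hj; omega)
    have := card_le_card h1
    rw [card_range] at this
    omega
  have := (card_le_card hs).trans (card_union_le _ _)
  rw [Nat.card_Ico, Nat.card_Ioc] at this
  omega

lemma exists_big' (A : ℝ) (m₀ : ℕ) : ∃ m, m₀ ≤ m ∧ A * (m + 1) ≤ 2 ^ m := by
  obtain ⟨t, ht⟩ := exists_big (⌈A⌉₊ * (m₀ + 1)) ⌈A⌉₊
  refine ⟨m₀ + t, by omega, ?_⟩
  have a : ((⌈A⌉₊ * (m₀ + 1) + ⌈A⌉₊ * t : ℕ) : ℝ) ≤ (2 ^ t : ℕ) := Nat.cast_le.2 ht.le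
  push_cast at a ⊢
  calc A * (m₀ + t + 1) ≤ ⌈A⌉₊ * (m₀ + t + 1) := by gcongr; exact Nat.le_ceil A
    _ ≤ 2 ^ t := by linarith
    _ ≤ _ := pow_le_pow_right₀ one_le_two (by omega)

variable {G E Q : Type*} [Group G] [NormedAddCommGroup E] [NormedSpace ℝ E] [Group Q] {r : G → ℝ}
  {ξ : G → E} {top : G → ℝ → G} {ball : ℝ → Finset G} {k : ℕ} {C c σ : ℝ} {d : Q → Q → ℕ} {δ e : ℕ}

lemma lin_close {X Y p V : E} {s t l ε : ℝ} (hl : 0 < l) (a : ‖X - p - s • V‖ ≤ ε)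
    (b : ‖Y - p - t • V‖ ≤ ε) : |‖X - Y‖ - (|s / l - t / l| * (‖V‖ * l))| ≤ 2 * ε := by
  have e1 : |s / l - t / l| * (‖V‖ * l) = ‖(s - t) • V‖ := by
    rw [norm_smul, ← sub_div, abs_div, abs_of_pos hl, Real.norm_eq_abs]; field_simp
  rw [e1]
  refine (abs_norm_sub_norm_le _ _).trans ?_
  rw [show X - Y - (s - t) • V = X - p - s • V - (Y - p - t • V) by module]
  exact (norm_sub_le _ _).trans (by linarith)

omit [NormedSpace ℝ E] in
lemma Geo.approx (h : Geo r ξ top ball k C c σ) {x y : G} {w τ M a b : ℝ} (hw : 0 < w)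
    (h1 : |‖ξ x - ξ y‖ - (|τ| * w)| ≤ a * w) (ha : a ≤ 1) (hτ : |τ| ≤ M)
    (hx : (r x)⁻¹ ≤ b * w) (hy : (r y)⁻¹ ≤ b * w) :
    |r (x⁻¹ * y) / (r x * (w / √2) * (r y * (w / √2))) - τ ^ 2| ≤ a * (2 * M + 1) + 2 * b ^ 2 := by
  have px := h.pos x
  have py := h.pos y
  have s2 : (√2 : ℝ) ^ 2 = 2 := Real.sq_sqrt (by norm_num)
  have e1 : r (x⁻¹ * y) / (r x * (w / √2) * (r y * (w / √2))) =
      (‖ξ x - ξ y‖ / w) ^ 2 + ((r x)⁻¹ / w) ^ 2 + ((r y)⁻¹ / w) ^ 2 := by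
    rw [h.gram, show r x * (w / √2) * (r y * (w / √2)) = r x * r y * w ^ 2 / √2 ^ 2 by ring, s2]
    field_simp
  have b1 : ((r x)⁻¹ / w) ^ 2 ≤ b ^ 2 := by gcongr; exact (div_le_iff₀ hw).2 hx
  have b2 : ((r y)⁻¹ / w) ^ 2 ≤ b ^ 2 := by gcongr; exact (div_le_iff₀ hw).2 hy
  have c1 : |‖ξ x - ξ y‖ / w - (|τ|)| ≤ a := by
    rw [show ‖ξ x - ξ y‖ / w - |τ| = (‖ξ x - ξ y‖ - |τ| * w) / w by field_simp, abs_div,
      abs_of_pos hw, div_le_iff₀ hw]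
    exact h1
  rw [e1, ← sq_abs τ]
  have a0 := (abs_nonneg _).trans c1
  have t0 := abs_nonneg τ
  obtain ⟨z, hz⟩ : ∃ z, z = ‖ξ x - ξ y‖ / w := ⟨_, rfl⟩
  have z0 : 0 ≤ z := by rw [hz]; positivity
  rw [← hz] at c1 ⊢
  have c2 : |z ^ 2 - |τ| ^ 2| ≤ a * (2 * M + 1) := by
    rw [sq_sub_sq, abs_mul, mul_comm]
    have := (abs_le.1 c1).2
    exact mul_le_mul c1 (abs_le.2 ⟨by linarith, by linarith⟩) (abs_nonneg _) a0
  have := abs_le.1 c2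
  exact abs_le.2 ⟨by nlinarith [sq_nonneg ((r x)⁻¹ / w), sq_nonneg ((r y)⁻¹ / w), sq_nonneg b],
    by linarith⟩

open scoped Classical in
lemma Geo.window (h : Geo r ξ top ball k C c σ) (H : Hyp d δ e) (π : G →* Q) {K W θ : ℝ} (R m₀ : ℕ)
    (hK : 1 ≤ K) (hW : 0 ≤ W) (hθ : 0 < θ) : ∃ m, m₀ ≤ m ∧ ∃ ε L : ℝ, 0 < ε ∧
    ∀ (l u : ℝ) (x : ℕ → G) (U : Finset ℕ) (q : Q) (a : ℕ) (p V : E), L ≤ l → 1 ≤ u →
      θ / (u * l) ≤ ‖V‖ → ‖V‖ ≤ 2 ^ m / (u * l) →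
      (∀ i ∈ U, ∀ i' ∈ U, ∀ j ∈ U, ∀ j' ∈ U, (x i)⁻¹ * x i' = (x j)⁻¹ * x j' →
        ((i : ℤ) - i').natAbs = ((j : ℤ) - j').natAbs) →
      (∀ i ∈ U, π (x i) = q ∧ a ≤ i ∧ (i : ℝ) ≤ a + 2 ^ m * l ∧ u * l ≤ K * r (x i) ∧
        r (x i) ≤ K * (u * l) ∧ ‖ξ (x i) - p - ((i : ℝ) - a) • V‖ ≤ ε / u ∧
        d 1 (π (top (x i) u)) + d (π (top (x i) u)) q ≤ d 1 q + R ∧
        (((ball (2 * c * (K * l))).filter fun g => π g = π ((top (x i) u)⁻¹ * x i)).card : ℝ) ≤ W * l) →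
      (U.card : ℝ) ≤ θ * 2 ^ m * l := by
  have c1 := h.c1
  obtain ⟨D, hD⟩ := h.len H π
  obtain ⟨t, ht⟩ := pow_unbounded_of_one_lt (13 * c) one_lt_two
  obtain ⟨b, hb⟩ : ∃ b : ℕ, b = 2 ^ (e * (R + δ)) := ⟨_, rfl⟩
  obtain ⟨m, m0, hm⟩ := exists_big' (b * (2 * D * (t + 4) + 1) * W * 2 / θ) m₀
  obtain ⟨M, hM⟩ : ∃ M : ℝ, M = 2 ^ m := ⟨_, rfl⟩
  have M1 : 1 ≤ M := hM ▸ one_le_pow₀ one_le_two
  obtain ⟨Y, hY⟩ : ∃ Y : ℕ, Y = (ball (2 ^ (t + 4 * m)) ×ˢ ball (2 ^ (t + 4 * m))).card := ⟨_, rfl⟩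
  obtain ⟨ζ, hζ⟩ : ∃ ζ, ζ = θ * M / (8 * (Y + 1)) := ⟨_, rfl⟩
  have ζ0 : 0 < ζ := by rw [hζ]; positivity
  obtain ⟨η, η0, hη⟩ := alg (M := M) h.σ0 ζ0
  obtain ⟨ε, ε0, ε1, ε2, ε3⟩ : ∃ ε : ℝ, 0 < ε ∧ ε ≤ 1 ∧ 2 * ε / θ ≤ 1 ∧
      2 * ε / θ * (2 * M + 1) ≤ η / 2 := by
    refine ⟨min 1 (min (θ / 2) (η / 2 / (2 * M + 1) * θ / 2)), by positivity, min_le_left _ _, ?_, ?_⟩
    · rw [div_le_one hθ]
      linarith [(min_le_right 1 _).trans (min_le_left (θ / 2) (η / 2 / (2 * M + 1) * θ / 2))]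
    · rw [← le_div_iff₀ (by positivity), div_le_iff₀ hθ]
      linarith [(min_le_right 1 _).trans (min_le_right (θ / 2) (η / 2 / (2 * M + 1) * θ / 2))]
  refine ⟨m, m0, ε, max K (max ζ⁻¹ (K / θ * (4 / η + 1))), ε0,
    fun l u x U q a p V hl hu hV1 hV2 iso hU => not_lt.1 fun hc => ?_⟩
  rw [← hM] at hV2 hU hc hm
  have lK : K ≤ l := (le_max_left _ _).trans hl
  have lζ : ζ⁻¹ ≤ l := ((le_max_left _ _).trans (le_max_right _ _)).trans hl
  have lη : K / θ * (4 / η + 1) ≤ l := ((le_max_right _ _).trans (le_max_right _ _)).trans hl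
  have l0 : 0 < l := by linarith
  have u0 : 0 < u := by linarith
  have ur : ∀ i ∈ U, u ≤ r (x i) := fun i hi => by
    have := (hU i hi).2.2.2.1
    have := mul_le_mul_of_nonneg_left lK u0.le
    exact le_of_mul_le_mul_left (by linarith) (by linarith : 0 < K)
  obtain ⟨w, hw⟩ : ∃ w, w = ‖V‖ * l := ⟨_, rfl⟩
  have w1 : θ / u ≤ w := by rw [hw, ← div_le_iff₀ l0, div_div]; exact hV1
  have w2 : w ≤ M / u := by rw [hw, ← le_div_iff₀ l0, div_div]; exact hV2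
  have w0 : 0 < w := lt_of_lt_of_le (by positivity) w1
  have tm : ∀ i ∈ U, ∀ j ∈ U, |((i : ℝ) - a) / l - (j - a) / l| ≤ M := fun i hi j hj => by
    obtain ⟨-, a1, a2, -⟩ := hU i hi
    obtain ⟨-, b1, b2, -⟩ := hU j hj
    have a1' : (a : ℝ) ≤ i := by exact_mod_cast a1
    have b1' : (a : ℝ) ≤ j := by exact_mod_cast b1
    rw [← sub_div, abs_div, abs_of_pos l0, div_le_iff₀ l0]
    exact abs_le.2 ⟨by linarith, by linarith⟩
  have lc : ∀ i ∈ U, ∀ j ∈ U, |‖ξ (x i) - ξ (x j)‖ - (|((i : ℝ) - a) / l - (j - a) / l| * w)| ≤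
      2 * (ε / u) := fun i hi j hj => hw ▸ lin_close l0 (hU i hi).2.2.2.2.2.1 (hU j hj).2.2.2.2.2.1
  have ap : ∀ i ∈ U, ∀ j ∈ U, |r ((x i)⁻¹ * x j) / (r (x i) * (w / √2) * (r (x j) * (w / √2))) -
      (((i : ℝ) - a) / l - (j - a) / l) ^ 2| ≤ η := fun i hi j hj => by
    have bb : ∀ i ∈ U, (r (x i))⁻¹ ≤ K / θ / l * w := fun i hi => by
      have := h.pos (x i)
      calc (r (x i))⁻¹ ≤ K / (u * l) := by
            rw [inv_eq_one_div, div_le_div_iff₀ this (by positivity), one_mul]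
            exact (hU i hi).2.2.2.1
        _ = K / θ / l * (θ / u) := by field_simp
        _ ≤ _ := by gcongr
    refine (h.approx w0 (a := 2 * ε / θ) ((lc i hi j hj).trans ?_) ε2 (tm i hi j hj) (bb i hi)
      (bb j hj)).trans ?_
    · calc 2 * (ε / u) = 2 * ε / θ * (θ / u) := by field_simp
        _ ≤ _ := by gcongr
    · have a1 : K / θ / l * (4 / η + 1) ≤ 1 := by
        rw [div_mul_eq_mul_div, div_le_one l0]; exact lη
      have a0 : 0 < K / θ / l := by positivity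
      obtain ⟨y, hy⟩ : ∃ y, y = K / θ / l := ⟨_, rfl⟩
      rw [← hy] at a1 a0 ⊢
      have a2 : y * (4 / η) * η = 4 * y := by field_simp
      have a3 : 0 < y * (4 / η) := by positivity
      have a4 : y * (4 / η) * η ≤ 1 * η := by gcongr; linarith
      nlinarith
  have tt : ∀ i ∈ U, ∀ j ∈ U, r ((top (x i) u)⁻¹ * top (x j) u) ≤ 2 ^ (t + 4 * m) := fun i hi j hj => by
    refine (h.t3 _ _ _ _ hu hu).trans ?_
    have n1 : ‖ξ (x i) - ξ (x j)‖ ≤ 3 * M ^ 2 / u := by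
      have a1 := (abs_le.1 (lc i hi j hj)).2
      have a2 : |((i : ℝ) - a) / l - (j - a) / l| * w ≤ M * (M / u) := by gcongr; exact tm i hi j hj
      have a3 : ε / u ≤ M ^ 2 / u := by gcongr; nlinarith
      calc _ ≤ M * (M / u) + 2 * (M ^ 2 / u) := by linarith
        _ = _ := by ring
    have n2 : ∀ i ∈ U, (r (x i))⁻¹ ^ 2 ≤ u⁻¹ ^ 2 := fun i hi => by
      have := h.pos (x i)
      gcongr
      exact ur i hi
    have n3 : ‖ξ (x i) - ξ (x j)‖ ^ 2 ≤ (3 * M ^ 2 / u) ^ 2 := by gcongr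
    have M4 : 1 ≤ M ^ 4 := one_le_pow₀ M1
    calc _ ≤ c * (u * u * (u⁻¹ ^ 2 + u⁻¹ ^ 2 + (3 * M ^ 2 / u) ^ 2 + u⁻¹ ^ 2 + u⁻¹ ^ 2)) := by
          gcongr ?_ * (_ * ?_)
          linarith [n2 i hi, n2 j hj]
      _ = c * (4 + 9 * M ^ 4) := by field_simp; ring
      _ ≤ c * (13 * M ^ 4) := by gcongr; linarith
      _ = 13 * c * M ^ 4 := by ring
      _ ≤ 2 ^ t * M ^ 4 := by gcongr
      _ = _ := by rw [hM, ← pow_mul, ← pow_add, mul_comm m]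
  obtain ⟨i₀, hi₀⟩ : U.Nonempty := card_pos.1 (by
    have : (0 : ℝ) < U.card := lt_trans (by positivity) hc
    exact_mod_cast this)
  let z : ℕ → G := fun i => (top (x i) u)⁻¹ * x i
  have hP : (U.image fun i => π (z i)).card ≤ b * (2 * (D * (t + 4 * m + 2)) + 1) := by
    have : (U.image fun i => π (z i)) = (U.image fun i => π (top (x i) u)).image fun y => y⁻¹ * q := by
      rw [image_image]
      exact image_congr fun i hi => by simp [z, (hU i hi).1]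
    rw [this, hb]
    refine card_image_le.trans (H.tube q (π (top (x i₀) u)) R _ _ fun y hy => ?_)
    obtain ⟨i, hi, rfl⟩ := mem_image.1 hy
    refine ⟨(hU i hi).2.2.2.2.2.2.1, ?_⟩
    have := H.inv (π (top (x i₀) u)) 1 (π ((top (x i₀) u)⁻¹ * top (x i) u))
    rw [mul_one, ← map_mul, mul_inv_cancel_left] at this
    exact this ▸ hD _ _ (tt i₀ hi₀ i hi)
  have hZ : ((U.image z).card : ℝ) ≤ θ * M * l / 2 := by
    have s1 : U.image z ⊆ (U.image fun i => π (z i)).biUnion fun y =>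
        (ball (2 * c * (K * l))).filter fun g => π g = y := fun g hg => by
      obtain ⟨i, hi, rfl⟩ := mem_image.1 hg
      refine mem_biUnion.2 ⟨_, mem_image_of_mem _ hi, mem_filter.2 ⟨(h.mem _ _).2 ?_, rfl⟩⟩
      refine (h.t2' hu (ur i hi)).trans ?_
      gcongr
      rw [div_le_iff₀ u0]
      linarith [(hU i hi).2.2.2.2.1]
    have s2 : ((U.image z).card : ℝ) ≤ ∑ y ∈ U.image fun i => π (z i),
        (((ball (2 * c * (K * l))).filter fun g => π g = y).card : ℝ) := by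
      exact_mod_cast (card_le_card s1).trans card_biUnion_le
    have s3 := sum_le_card_nsmul (U.image fun i => π (z i))
      (fun y => (((ball (2 * c * (K * l))).filter fun g => π g = y).card : ℝ)) (W * l) fun y hy => by
        obtain ⟨i, hi, rfl⟩ := mem_image.1 hy
        exact (hU i hi).2.2.2.2.2.2.2
    rw [nsmul_eq_mul] at s3
    have s4 : ((U.image fun i => π (z i)).card : ℝ) ≤ b * (2 * D * (t + 4) + 1) * (m + 1) := by
      have : b * (2 * (D * (t + 4 * m + 2)) + 1) ≤ b * ((2 * D * (t + 4) + 1) * (m + 1)) :=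
        Nat.mul_le_mul_left _ (by nlinarith [Nat.zero_le (D * t * m), Nat.zero_le D])
      rw [mul_assoc]
      exact_mod_cast hP.trans this
    have s5 : b * (2 * D * (t + 4) + 1) * W * 2 * (m + 1) ≤ M * θ := by
      rwa [div_mul_eq_mul_div, div_le_iff₀ hθ] at hm
    calc _ ≤ _ := s2.trans s3
      _ ≤ b * (2 * D * (t + 4) + 1) * (m + 1) * (W * l) := by gcongr
      _ = b * (2 * D * (t + 4) + 1) * W * 2 * (m + 1) * l / 2 := by ring
      _ ≤ M * θ * l / 2 := by gcongr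
      _ = _ := by ring
  set U₁ := U.filter fun i => ∃ j ∈ U, j ≠ i ∧ z j = z i with hU₁
  have hU1 : θ * M * l / 2 < U₁.card := by
    have s1 : (U.filter fun i => ¬ ∃ j ∈ U, j ≠ i ∧ z j = z i).card ≤ (U.image z).card :=
      card_le_card_of_injOn z (fun i hi => mem_image_of_mem z (mem_filter.1 hi).1)
        fun i hi j hj e => by_contra fun n => (mem_filter.1 hj).2 ⟨i, (mem_filter.1 hi).1, n, e⟩
    have s2 := card_filter_add_card_filter_not (s := U) fun i => ∃ j ∈ U, j ≠ i ∧ z j = z i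
    have s3 : (U.card : ℝ) ≤ U₁.card + (U.image z).card := by
      exact_mod_cast s2.ge.trans (Nat.add_le_add_left s1 _)
    linarith
  choose! τ hτ using fun i (hi : i ∈ U₁) => (mem_filter.1 hi).2
  have lz : 1 ≤ ζ * l := by rwa [inv_le_iff_one_le_mul₀' ζ0] at lζ
  have N2 : (⌈ζ * l⌉₊ : ℝ) ≤ 2 * (ζ * l) := by linarith [Nat.ceil_lt_add_one (by linarith : 0 ≤ ζ * l)]
  obtain ⟨y, -, hy⟩ := exists_lt_card_fiber_of_mul_lt_card_of_maps_to (s := U₁) (n := 2 * ⌈ζ * l⌉₊)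
    (f := fun i => ((top (x i₀) u)⁻¹ * top (x i) u, (top (x i₀) u)⁻¹ * top (x (τ i)) u))
    (t := ball (2 ^ (t + 4 * m)) ×ˢ ball (2 ^ (t + 4 * m)))
    (fun i hi => mem_product.2 ⟨(h.mem _ _).2 (tt i₀ hi₀ i (mem_filter.1 hi).1),
      (h.mem _ _).2 (tt i₀ hi₀ _ (hτ i hi).1)⟩) (by
      rw [← hY]
      have s1 : (Y : ℝ) * (2 * ⌈ζ * l⌉₊) ≤ (Y + 1) * (2 * (2 * (ζ * l))) := by gcongr; linarith
      have s2 : (Y + 1) * (2 * (2 * (ζ * l))) = θ * M * l / 2 := by rw [hζ]; field_simp; ring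
      exact_mod_cast (s1.trans s2.le).trans_lt hU1)
  obtain ⟨i, hi, g1, g2⟩ := three_sep _ _ hy
  have i1 : ∀ s, i s ∈ U₁ := fun s => (mem_filter.1 (hi s)).1
  have iU : ∀ s, i s ∈ U := fun s => (mem_filter.1 (i1 s)).1
  have jU : ∀ s, τ (i s) ∈ U := fun s => (hτ _ (i1 s)).1
  set n := top (x i₀) u * (y.1 * y.2⁻¹) * (top (x i₀) u)⁻¹ with hn
  have hx : ∀ s, n * x (τ (i s)) = x (i s) := fun s => by
    have e1 : (top (x (τ (i s))) u)⁻¹ * x (τ (i s)) = (top (x (i s)) u)⁻¹ * x (i s) := (hτ _ (i1 s)).2.2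
    rw [hn, ← (mem_filter.1 (hi s)).2, eq_mul_inv_of_mul_eq (inv_mul_eq_iff_eq_mul.1 e1.symm).symm]
    group
  have hxx : ∀ s s', (x (τ (i s)))⁻¹ * x (τ (i s')) = (x (i s))⁻¹ * x (i s') := fun s s' => by
    rw [← hx s, ← hx s']; group
  have n1 : n ≠ 1 := fun e => by
    have := iso _ (jU 0) _ (iU 0) _ (iU 0) _ (iU 0) (by rw [← hx 0, e, one_mul])
    have := (hτ _ (i1 0)).2.1
    omega
  have N0 : 1 ≤ ⌈ζ * l⌉₊ := Nat.ceil_pos.2 (by linarith)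
  obtain ⟨sg, sg1, sg2⟩ : ∃ sg : ℤ, sg ^ 2 = 1 ∧ ∀ s, (τ (i s) : ℤ) - τ (i 1) = sg * (i s - i 1) := by
    have a1 := iso _ (jU 0) _ (jU 1) _ (iU 0) _ (iU 1) (hxx 0 1)
    have a2 := iso _ (jU 1) _ (jU 2) _ (iU 1) _ (iU 2) (hxx 1 2)
    have a3 := iso _ (jU 0) _ (jU 2) _ (iU 0) _ (iU 2) (hxx 0 2)
    rcases le_total (τ (i 0)) (τ (i 1)) with o | o
    · exact ⟨1, rfl, fun s => by fin_cases s <;> simp <;> omega⟩
    · exact ⟨-1, rfl, fun s => by fin_cases s <;> simp <;> omega⟩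
  have gap : ∀ s s', i s + ⌈ζ * l⌉₊ ≤ i s' → ζ ≤ ((i s' : ℝ) - a) / l - (i s - a) / l := fun s s' o => by
    have : ((i s : ℝ)) + ⌈ζ * l⌉₊ ≤ i s' := by exact_mod_cast o
    rw [← sub_div, le_div_iff₀ l0]
    linarith [Nat.le_ceil (ζ * l)]
  obtain ⟨α, a1, a2⟩ := hη (fun s => ((τ (i s) : ℝ) - a) / l) (fun s => ((i s : ℝ) - a) / l)
    (fun s => r (x (τ (i s))) * (w / √2)) (fun s => r (x (i s)) * (w / √2))
    (fun s s' => r ((x (τ (i s)))⁻¹ * x (τ (i s')))) (fun s s' => r ((x (τ (i s)))⁻¹ * x (i s'))) sg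
    (by exact_mod_cast sg1) (fun s => by
      have : (τ (i s) : ℝ) - τ (i 1) = sg * (i s - i 1) := by exact_mod_cast sg2 s
      field_simp
      linarith) (gap 0 1 g1) (gap 1 2 g2) (fun s s' => tm _ (jU s) _ (iU s'))
    (fun s => ⟨mul_pos (h.pos _) (by positivity), mul_pos (h.pos _) (by positivity)⟩)
    fun s s' => ⟨ap _ (jU s) _ (jU s'), hxx s s' ▸ ap _ (iU s) _ (iU s'), ap _ (jU s) _ (iU s')⟩
  have := h.sys n n1 (fun s => x (τ (i s))) α a1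
  simp only [hx] at this
  linarith

end Pool.Agent.Lib.MP_60b36a_gt.Sp
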